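import Mathlib

/-! Linear algebra: greedy completion, a Siegel type criterion, a counting lemma. -/

namespace Pool.Agent.Lib.MP_dda4e9_nt.LB

open Matrix Finset Module

theorem greedy {R ι : Type*} [CommRing R] [Nontrivial R] [Fintype ι] [DecidableEq ι]
    (S : Set (ι → R)) :
    ∃ (Q : Matrix ι ι R) (I : Finset ι), Q.det ≠ 0 ∧ (∀ i ∈ I, Q i = Pi.single i 1) ∧
      (∀ i ∉ I, Q i ∈ S) ∧ ∀ i ∈ I, ∀ y ∈ S, (Q.updateRow i y).det = 0 := by
  classical
  have h0 : ∃ k, ∃ (Q : Matrix ι ι R) (I : Finset ι), I.card = k ∧ Q.det ≠ 0 ∧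
      (∀ i ∈ I, Q i = Pi.single i 1) ∧ ∀ i ∉ I, Q i ∈ S :=
    ⟨_, 1, univ, rfl, by simp, fun i _ => by
      ext j; simp [Matrix.one_apply, Pi.single_apply, eq_comm], by simp⟩
  obtain ⟨Q, I, hk, h1, h2, h3⟩ := Nat.find_spec h0
  refine ⟨Q, I, h1, h2, h3, fun i hi y hy => by_contra fun h => ?_⟩
  refine Nat.find_min h0 (m := (I.erase i).card) (hk ▸ card_erase_lt_of_mem hi)
    ⟨Q.updateRow i y, I.erase i, rfl, h, fun j hj => ?_, fun j hj => ?_⟩
  · rw [updateRow_ne (ne_of_mem_erase hj)]; exact h2 j (mem_of_mem_erase hj)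
  · by_cases e : j = i
    · rw [e, updateRow_self]; exact hy
    · rw [updateRow_ne e]; exact h3 j fun h' => hj (mem_erase.2 ⟨e, h'⟩)

theorem expand {R ι : Type*} [CommRing R] [Fintype ι] [DecidableEq ι] (Q : Matrix ι ι R)
    (y : ι → R) (j : ι) : Q.det * y j = ∑ i, (Q.updateRow i y).det * Q i j := by
  have := congrFun (mulVec_cramer Qᵀ y) j
  simp only [mulVec, dotProduct, transpose_apply, cramer_transpose_apply, det_transpose,
    Pi.smul_apply, smul_eq_mul] at this
  rw [← this]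
  exact sum_congr rfl fun i _ => mul_comm _ _

theorem det_updateRow_eq {R ι : Type*} [CommRing R] [Fintype ι] [DecidableEq ι]
    (Q : Matrix ι ι R) (y : ι → R) (i : ι) :
    (Q.updateRow i y).det = ∑ k, y k * Q.adjugate k i := by
  rw [← cramer_transpose_apply, cramer_eq_adjugate_mulVec, ← adjugate_transpose]
  exact sum_congr rfl fun k _ => mul_comm _ _

theorem siegel {ι : Type*} [Fintype ι] (θ : ι → ℂ) (d : ℕ)
    (hd : finrank ℚ (Submodule.span ℚ (Set.range θ)) ≤ d)
    (h1 : (1 : ℂ) ∈ Submodule.span ℚ (Set.range θ)) :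
    ∃ c : ℝ, 0 < c ∧ ∀ Q ε : ℝ, 1 ≤ Q → 0 ≤ ε → ∀ F : Set ℂ,
      (∀ f ∈ F, ‖f‖ ≤ ε ∧ ∃ l : ι → ℤ, (∀ i, (|l i| : ℝ) ≤ Q) ∧ f = ∑ i, l i * θ i) →
      (1 : ℂ) ∈ Submodule.span ℚ F → 1 ≤ c * Q ^ d * ε := by
  classical
  set E := Submodule.span ℚ (Set.range θ)
  have : FiniteDimensional ℚ E := FiniteDimensional.span_of_finite ℚ (Set.finite_range θ)
  set e := finrank ℚ E
  let b := finBasis ℚ E
  obtain ⟨π, hπ⟩ := LinearMap.exists_extend b.equivFun.toLinearMap
  have hE : ∀ x ∈ E, x = ∑ k, (π x k : ℂ) * (b k : ℂ) := fun x hx => by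
    have h2 : π x = b.equivFun ⟨x, hx⟩ := congrArg (fun g => g ⟨x, hx⟩) hπ
    have h3 := congrArg Subtype.val (b.sum_equivFun ⟨x, hx⟩)
    rw [AddSubmonoidClass.coe_finsetSum] at h3
    rw [h2]
    exact h3.symm.trans (sum_congr rfl fun k _ => by rw [Submodule.coe_smul, Rat.smul_def])
  let θ' : Option ι → ℂ := fun o => o.elim 1 θ
  obtain ⟨δ, hδ, z, hz⟩ : ∃ δ : ℕ, 0 < δ ∧ ∃ z : Option ι → Fin e → ℤ,
      ∀ o k, (z o k : ℚ) = δ * π (θ' o) k := by
    refine ⟨∏ p : Option ι × Fin e, (π (θ' p.1) p.2).den, prod_pos fun p _ => Rat.den_pos _, ?_⟩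
    have : ∀ o k, ∃ t : ℤ, (t : ℚ) =
        (∏ p : Option ι × Fin e, (π (θ' p.1) p.2).den : ℕ) * π (θ' o) k := fun o k => by
      obtain ⟨t, ht⟩ := dvd_prod_of_mem (fun p : Option ι × Fin e => (π (θ' p.1) p.2).den)
        (mem_univ (o, k))
      refine ⟨t * (π (θ' o) k).num, ?_⟩
      rw [ht]
      push_cast
      rw [← Rat.mul_den_eq_num]
      ring
    choose z hz using this
    exact ⟨z, hz⟩
  set K : ℝ := ∑ o, ∑ k, (|z o k| : ℝ) + 1 with hK
  have hK0 : ∀ k, ∑ o, (|z o k| : ℝ) ≤ K := fun k => by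
    refine le_trans (sum_le_sum fun o _ => ?_) (le_add_of_nonneg_right zero_le_one)
    exact single_le_sum (f := fun k => (|z o k| : ℝ)) (fun _ _ => abs_nonneg _) (mem_univ k)
  have hK1 : 1 ≤ K := le_add_of_nonneg_left (by positivity)
  refine ⟨(e + 1) * e.factorial * K ^ d, by positivity, fun Q ε hQ hε F hF h1F => ?_⟩
  have hKQ : 1 ≤ K * Q := one_le_mul_of_one_le_of_one_le hK1 hQ
  obtain ⟨P, I, p1, p2, p3, p4⟩ := greedy {y : Fin e → ℤ | ∃ f ∈ F,
    (∀ k, (y k : ℚ) = δ * π f k) ∧ ∀ k, (|y k| : ℝ) ≤ K * Q}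
  have hδ' : (δ : ℚ) ≠ 0 := by exact_mod_cast hδ.ne'
  have hu : ∀ i ∈ I, (P.updateRow i (z none)).det = 0 := fun i hi => by
    let ψ : ℂ →ₗ[ℚ] ℚ := ∑ k, (P.adjugate k i : ℚ) • (LinearMap.proj k ∘ₗ π)
    have hψ : ∀ x, ψ x = ∑ k, (P.adjugate k i : ℚ) * π x k := fun x => by simp [ψ]
    have key : ∀ (x : ℂ) (y : Fin e → ℤ), (∀ k, (y k : ℚ) = δ * π x k) →
        ((P.updateRow i y).det : ℚ) = δ * ψ x := fun x y hy => by
      rw [det_updateRow_eq, hψ, mul_sum]
      push_cast
      exact sum_congr rfl fun k _ => by rw [hy]; ring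
    have h2 : Submodule.span ℚ F ≤ LinearMap.ker ψ := Submodule.span_le.2 fun f hf => by
      obtain ⟨-, l, hl, rfl⟩ := hF f hf
      have h3 : ∀ k, ((∑ i, l i * z (some i) k : ℤ) : ℚ) = δ * π (∑ i, l i * θ i) k := fun k => by
        have : ∀ i, π (l i * θ i) = (l i : ℚ) • π (θ i) := fun i => by
          rw [← map_smul]; simp [Rat.smul_def]
        simp only [map_sum, this, Finset.sum_apply, Pi.smul_apply, smul_eq_mul, mul_sum]
        push_cast
        exact sum_congr rfl fun i _ => by rw [hz]; simp only [θ', Option.elim]; ring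
      have h4 := key _ _ h3
      rw [p4 i hi _ ⟨_, hf, h3, fun k => ?_⟩] at h4
      · simpa [hδ'] using h4.symm
      · push_cast
        refine (abs_sum_le_sum_abs _ _).trans ?_
        calc ∑ i, |(l i : ℝ) * z (some i) k| ≤ ∑ i, |(z (some i) k : ℝ)| * Q :=
              sum_le_sum fun i _ => by rw [abs_mul, mul_comm]; gcongr; exact hl i
          _ ≤ K * Q := by
              rw [← sum_mul]
              gcongr
              refine le_trans ?_ (hK0 k)
              rw [Fintype.sum_option]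
              exact le_add_of_nonneg_left (abs_nonneg _)
    have h5 := key 1 (z none) (hz none)
    rw [LinearMap.mem_ker.1 (h2 h1F), mul_zero] at h5
    exact_mod_cast h5
  have hcast : ∀ (x : ℂ) (y : Fin e → ℤ), x ∈ E → (∀ k, (y k : ℚ) = δ * π x k) →
      ∑ k, (y k : ℂ) * (b k : ℂ) = δ * x := fun x y hx hy => by
    conv_rhs => rw [hE x hx, mul_sum]
    refine sum_congr rfl fun k _ => ?_
    have : ((y k : ℚ) : ℂ) = ((δ * π x k : ℚ) : ℂ) := by rw [hy]
    push_cast at this
    rw [this, mul_assoc]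
  have h6 : (P.det : ℂ) * δ = ∑ i, ((P.updateRow i (z none)).det : ℂ) *
      ∑ k, (P i k : ℂ) * (b k : ℂ) := by
    have := hcast 1 (z none) h1 (hz none)
    rw [mul_one] at this
    rw [← this, mul_sum]
    simp only [mul_sum]
    rw [sum_comm]
    refine sum_congr rfl fun k _ => ?_
    have h7 : ((P.det * z none k : ℤ) : ℂ) = _ := congrArg Int.cast (expand P (z none) k)
    simp only [Int.cast_mul, Int.cast_sum] at h7
    rw [← mul_assoc, h7, sum_mul]
    exact sum_congr rfl fun i _ => mul_assoc _ _ _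
  have hdet : ∀ i, (|(P.updateRow i (z none)).det| : ℝ) ≤ e.factorial * (K * Q) ^ d := fun i => by
    have h8 := det_le (A := (P.updateRow i (z none)).map (Int.castRingHom ℝ))
      (abv := AbsoluteValue.abs) (x := K * Q) fun j k => by
        simp only [map_apply, eq_intCast, AbsoluteValue.abs_apply, updateRow_apply]
        split_ifs with hj
        · refine le_trans ?_ ((hK0 k).trans (le_mul_of_one_le_right (by positivity) hQ))
          exact single_le_sum (f := fun o => (|z o k| : ℝ)) (fun _ _ => abs_nonneg _)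
            (mem_univ none)
        · by_cases hI : j ∈ I
          · rw [p2 j hI, Pi.single_apply]
            split_ifs <;> simp [hKQ, zero_le_one.trans hKQ]
          · exact (p3 j hI).choose_spec.2.2 k
    rw [← RingHom.mapMatrix_apply, ← RingHom.map_det] at h8
    simp only [eq_intCast, AbsoluteValue.abs_apply, Fintype.card_fin, nsmul_eq_mul] at h8
    exact h8.trans (by gcongr)
  have h9 : (δ : ℝ) ≤ e * (e.factorial * (K * Q) ^ d * (δ * ε)) := by
    calc (δ : ℝ) ≤ ‖(P.det : ℂ) * δ‖ := by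
          rw [norm_mul, Complex.norm_natCast, Complex.norm_intCast]
          refine le_mul_of_one_le_left (by positivity) ?_
          exact_mod_cast Int.one_le_abs p1
      _ ≤ _ := by
          rw [h6]
          refine (norm_sum_le_of_le _ (n := fun _ => e.factorial * (K * Q) ^ d * (δ * ε))
            fun i _ => ?_).trans (by simp)
          by_cases hI : i ∈ I
          · rw [hu i hI]; simp; positivity
          · obtain ⟨f, hf, f1, -⟩ := p3 i hI
            obtain ⟨f2, l, -, f3⟩ := hF f hf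
            have hfE : f ∈ E := f3 ▸ Submodule.sum_mem _ fun i _ => by
              have := E.smul_mem (l i : ℚ) (Submodule.subset_span ⟨i, rfl⟩)
              simpa [Rat.smul_def] using this
            rw [hcast f _ hfE f1, norm_mul, norm_mul, Complex.norm_intCast, Complex.norm_natCast]
            gcongr
            exact hdet i
  have hδ2 : (0 : ℝ) < δ := by exact_mod_cast hδ
  have h10 : 1 ≤ e * (e.factorial * (K * Q) ^ d * ε) :=
    le_of_mul_le_mul_left (a := (δ : ℝ)) (by linarith) hδ2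
  refine h10.trans ?_
  rw [mul_pow]
  have : 0 ≤ e.factorial * (K ^ d * Q ^ d) * ε := by positivity
  nlinarith

theorem count {ι κ μ : Type*} [Fintype ι] [Fintype κ] [Fintype μ] (B : κ → ι → ℂ)
    (hB : LinearIndependent ℂ B) (c : μ → ι → ℕ) (X E : ℕ) (hc : ∀ r, ∑ i, c r i ≤ E)
    (h : ∀ J : ι → ℤ, (∀ i, |J i| ≤ X) → (∀ r, ∑ i, (c r i : ℤ) * J i = 0) →
      ∀ k, ∑ i, B k i * J i = 0) :
    (X + 1) ^ Fintype.card κ ≤ (E * X + 1) ^ Fintype.card μ := by
  classical
  obtain ⟨Q, I, p1, p2, p3, p4⟩ := greedy (Set.range B)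
  have h1 : Fintype.card κ ≤ Iᶜ.card := by
    have h2 : ∀ k, B k ∈ Submodule.span ℂ ((Iᶜ.image Q : Finset (ι → ℂ)) : Set (ι → ℂ)) :=
      fun k => by
        have : B k = ∑ i, (Q.det⁻¹ * (Q.updateRow i (B k)).det) • Q i := by
          ext j
          simp only [Finset.sum_apply, Pi.smul_apply, smul_eq_mul, mul_assoc, ← mul_sum,
            ← expand, inv_mul_cancel_left₀ p1]
        rw [this]
        refine Submodule.sum_mem _ fun i _ => ?_
        by_cases hi : i ∈ I
        · simp [p4 i hi _ ⟨k, rfl⟩]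
        · exact Submodule.smul_mem _ _ (Submodule.subset_span (by simpa using ⟨i, hi, rfl⟩))
    have h3 := (LinearIndependent.of_comp (Submodule.subtype _)
      (v := fun k => (⟨B k, h2 k⟩ : Submodule.span ℂ _)) hB).fintype_card_le_finrank
    exact h3.trans ((finrank_span_finset_le_card _).trans card_image_le)
  let Φ : (ι → Fin (X + 1)) → (μ → Fin (E * X + 1)) × (I → Fin (X + 1)) := fun J =>
    (fun r => ⟨∑ i, c r i * J i, Nat.lt_succ_of_le (le_trans
      (sum_le_sum fun i _ => Nat.mul_le_mul_left _ (Nat.le_of_lt_succ (J i).2))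
      (by rw [← sum_mul]; exact Nat.mul_le_mul_right _ (hc r)))⟩, fun i => J i)
  have hΦ : Function.Injective Φ := fun J J' hJ => by
    have e1 : ∀ r, ∑ i, c r i * J i = ∑ i, c r i * J' i :=
      fun r => congrArg Fin.val (congrFun (congrArg Prod.fst hJ) r)
    have e2 : ∀ i ∈ I, J i = J' i := fun i hi => congrFun (congrArg Prod.snd hJ) ⟨i, hi⟩
    have e3 := h (fun i => (J i : ℕ) - (J' i : ℕ)) (fun i => by
      have := (J i).2
      have := (J' i).2
      rw [abs_le]; omega) fun r => by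
        have : ((∑ i, c r i * J i : ℕ) : ℤ) = (∑ i, c r i * J' i : ℕ) := by rw [e1]
        push_cast at this
        simp only [mul_sub, sum_sub_distrib, this, sub_self]
    have e4 : Q *ᵥ (fun i => (((J i : ℕ) - (J' i : ℕ) : ℤ) : ℂ)) = 0 := funext fun i => by
      by_cases hi : i ∈ I
      · simp [mulVec, p2 i hi, e2 i hi]
      · obtain ⟨k, hk⟩ := p3 i hi
        simpa only [mulVec, dotProduct, ← hk, Pi.zero_apply] using e3 k
    have e5 := eq_zero_of_mulVec_eq_zero p1 e4
    ext i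
    have := congrFun e5 i
    simp only [Pi.zero_apply, Int.cast_eq_zero] at this
    omega
  have h4 := Fintype.card_le_of_injective Φ hΦ
  simp only [Fintype.card_fun, Fintype.card_fin, Fintype.card_prod, Fintype.card_coe] at h4
  rw [← card_compl_add_card I, pow_add] at h4
  exact (Nat.pow_le_pow_right (Nat.succ_pos _) h1).trans
    (Nat.le_of_mul_le_mul_right h4 (by positivity))

end Pool.Agent.Lib.MP_dda4e9_nt.LB
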