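import Pool.Agent.Lib.MP_dda4e9_nt.Series

/-! Functions on the arc `1 - exp (-i θ)`, `0 < θ < π / 3`. -/

set_option autoImplicit false

namespace Pool.Agent.Lib.MP_dda4e9_nt

open Real Filter Topology Set MeasureTheory Metric
open Complex (I)

lemma c_pos : 0 < π / 3 := by positivity

lemma sin_half_pos {θ : ℝ} (h0 : 0 < θ) (h1 : θ ≤ π / 3) : 0 < sin (θ / 2) :=
  sin_pos_of_pos_of_lt_pi (by linarith) (by linarith [pi_pos])

lemma hasDerivAt_A {θ : ℝ} (h0 : 0 < θ) (h1 : θ ≤ π / 3) :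
    HasDerivAt A (cos (θ / 2) / (2 * sin (θ / 2))) θ := by
  have hs := sin_half_pos h0 h1
  have h2 : HasDerivAt (fun t : ℝ => 2 * sin (t / 2)) (cos (θ / 2)) θ := by
    have := (((hasDerivAt_id θ).div_const 2).sin).const_mul 2
    simp only [id] at this
    exact this.congr_deriv (by ring)
  have : A = fun t => log (2 * sin (t / 2)) := funext fun t => log_abs _
  rw [this]
  exact h2.log (by positivity)

lemma A_end : A (π / 3) = 0 := by
  unfold A
  rw [show π / 3 / 2 = π / 6 by ring, sin_pi_div_six]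
  norm_num

lemma intInt_A : IntervalIntegrable A volume 0 (π / 3) := by
  have h1 : IntervalIntegrable (fun t : ℝ => (log ∘ sin) ((1 / 2) * t)) volume
      (0 / (1 / 2)) ((π / 6) / (1 / 2)) :=
    intervalIntegrable_log_sin.comp_mul_left (c := 1 / 2) (by simp) (by simp)
  rw [show (0 : ℝ) / (1 / 2) = 0 by ring, show π / 6 / (1 / 2) = π / 3 by ring] at h1
  refine ((intervalIntegrable_const (c := log 2)).add h1).congr ?_
  intro t ht
  rw [uIoc_of_le c_pos.le] at ht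
  have hs := sin_half_pos ht.1 ht.2
  simp only [A, Function.comp, log_abs]
  rw [log_mul (by norm_num) hs.ne', show 1 / 2 * t = t / 2 by ring]

lemma intInt_F {a : ℕ} {k : List ℕ} (h : ContinuousOn (F k) (Icc 0 (π / 3))) :
    IntervalIntegrable (fun t => (t - π / 3) ^ a * A t * F k t) volume 0 (π / 3) := by
  refine (intInt_A.continuousOn_mul (by fun_prop)).mul_continuousOn ?_
  rwa [uIcc_of_le c_pos.le]

lemma contOn_F (k : List ℕ) : ContinuousOn (F k) (Icc 0 (π / 3)) := by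
  induction k with
  | nil => exact continuousOn_const
  | cons a k ih =>
    have := intervalIntegral.continuousOn_primitive_interval' (intInt_F (a := a - 2) ih)
      left_mem_uIcc
    rwa [uIcc_of_le c_pos.le] at this

lemma hasDerivAt_F (a : ℕ) (k : List ℕ) {θ : ℝ} (h : θ ∈ Ioo 0 (π / 3)) :
    HasDerivAt (F (a :: k)) ((θ - π / 3) ^ (a - 2) * A θ * F k θ) θ := by
  have hc : ∀ t ∈ Ioo 0 (π / 3),
      ContinuousAt (fun t => (t - π / 3) ^ (a - 2) * A t * F k t) t := fun t ht =>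
    (ContinuousAt.mul (by fun_prop) (hasDerivAt_A ht.1 ht.2.le).continuousAt).mul
      ((contOn_F k).continuousAt (Icc_mem_nhds ht.1 ht.2))
  refine intervalIntegral.integral_hasDerivAt_right ?_
    (ContinuousAt.stronglyMeasurableAtFilter isOpen_Ioo hc θ h) (hc θ h)
  refine (intInt_F (contOn_F k)).mono_set ?_
  rw [uIcc_of_le c_pos.le, uIcc_of_le h.1.le]
  exact Icc_subset_Icc_right h.2.le

/-- `G` is the primitive of `f` which vanishes at `0` -/
def Pr (f G : ℝ → ℂ) : Prop :=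
  (∀ θ ∈ Ioo 0 (π / 3), HasDerivAt G (f θ) θ) ∧ Tendsto G (𝓝[>] 0) (𝓝 0)

lemma Pr.congr {f f' G : ℝ → ℂ} (h : Pr f G) (hf : EqOn f f' (Ioo 0 (π / 3))) : Pr f' G :=
  ⟨fun θ hθ => hf hθ ▸ h.1 θ hθ, h.2⟩

lemma Pr.add {f f' G G' : ℝ → ℂ} (h : Pr f G) (h' : Pr f' G') : Pr (f + f') (G + G') :=
  ⟨fun θ hθ => (h.1 θ hθ).add (h'.1 θ hθ), by simpa [Pi.add_def] using h.2.add h'.2⟩

lemma Pr.smul {f G : ℝ → ℂ} (h : Pr f G) (q : ℚ) : Pr (q • f) (q • G) :=
  ⟨fun θ hθ => (h.1 θ hθ).const_smul q, by simpa [Pi.smul_def] using h.2.const_smul q⟩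

lemma Pr.const_mul {f G : ℝ → ℂ} (h : Pr f G) (q : ℂ) :
    Pr (fun t => q * f t) (fun t => q * G t) :=
  ⟨fun θ hθ => (h.1 θ hθ).const_mul q, by simpa using h.2.const_mul q⟩

lemma Pr.unique {f G G' : ℝ → ℂ} (h : Pr f G) (h' : Pr f G') : EqOn G G' (Ioo 0 (π / 3)) := by
  have h1 : ∀ θ ∈ Ioo 0 (π / 3), HasDerivAt (G - G') 0 θ := fun θ hθ => by
    simpa using (h.1 θ hθ).sub (h'.1 θ hθ)
  obtain ⟨a, ha⟩ := isOpen_Ioo.exists_is_const_of_deriv_eq_zero isPreconnected_Ioo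
    (fun θ hθ => (h1 θ hθ).differentiableAt.differentiableWithinAt) fun θ hθ => (h1 θ hθ).deriv
  have h2 : Tendsto (G - G') (𝓝[>] 0) (𝓝 0) := by simpa [Pi.sub_def] using h.2.sub h'.2
  have h3 : Tendsto (G - G') (𝓝[>] 0) (𝓝 a) :=
    tendsto_const_nhds.congr' (by
      filter_upwards [Ioo_mem_nhdsGT c_pos] with θ hθ using (ha θ hθ).symm)
  intro θ hθ
  have := ha θ hθ
  rw [← tendsto_nhds_unique h2 h3] at this
  exact sub_eq_zero.1 this

lemma tendsto_of_contOn {G : ℝ → ℂ} (h : ContinuousOn G (Icc 0 (π / 3))) (h0 : G 0 = 0) :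
    Tendsto G (𝓝[>] 0) (𝓝 0) := by
  have := (h 0 (left_mem_Icc.2 c_pos.le)).tendsto
  rw [h0] at this
  exact this.mono_left (nhdsWithin_le_of_mem (Icc_mem_nhdsGT c_pos))

/-- the generating functions -/
noncomputable def gf (w m j : ℕ) (k : List ℕ) (θ : ℝ) : ℂ :=
  I ^ (w + k.length) * ((π ^ m * (θ - π / 3) ^ j * F k θ : ℝ) : ℂ)

/-- the class of functions of weight `w` and depth at most `d` -/
noncomputable def B (w d : ℕ) : Submodule ℚ (ℝ → ℂ) :=
  Submodule.span ℚ {b | ∃ m j k, k.length ≤ d ∧ (∀ a ∈ k, 2 ≤ a) ∧ m + j + k.sum = w ∧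
    b = gf w m j k}

lemma gf_mem {w d m j : ℕ} {k : List ℕ} (h1 : k.length ≤ d) (h2 : ∀ a ∈ k, 2 ≤ a)
    (h3 : m + j + k.sum = w) : gf w m j k ∈ B w d :=
  Submodule.subset_span ⟨m, j, k, h1, h2, h3, rfl⟩

lemma B_mono {w d d' : ℕ} (h : d ≤ d') : B w d ≤ B w d' :=
  Submodule.span_mono fun _ ⟨m, j, k, h1, h2⟩ => ⟨m, j, k, h1.trans h, h2⟩

lemma contOn_gf (w m j : ℕ) (k : List ℕ) : ContinuousOn (gf w m j k) (Icc 0 (π / 3)) :=
  continuousOn_const.mul (Complex.continuous_ofReal.comp_continuousOn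
    (ContinuousOn.mul (by fun_prop) (contOn_F k)))

lemma contOn_B {w d : ℕ} {b : ℝ → ℂ} (hb : b ∈ B w d) : ContinuousOn b (Icc 0 (π / 3)) := by
  induction hb using Submodule.span_induction with
  | mem x hx => obtain ⟨m, j, k, -, -, -, rfl⟩ := hx; exact contOn_gf _ _ _ _
  | zero => exact continuousOn_const
  | add x y _ _ hx hy => exact hx.add hy
  | smul q x _ hx => exact hx.const_smul q

lemma F_zero (a : ℕ) (k : List ℕ) : F (a :: k) 0 = 0 := by simp [F]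

lemma prim_of_gen {w d w' d' : ℕ} (u : ℝ → ℂ)
    (h : ∀ m j k, k.length ≤ d → (∀ a ∈ k, 2 ≤ a) → m + j + k.sum = w →
      ∃ b' ∈ B w' d', Pr (u * gf w m j k) b') {b : ℝ → ℂ} (hb : b ∈ B w d) :
    ∃ b' ∈ B w' d', Pr (u * b) b' := by
  induction hb using Submodule.span_induction with
  | mem x hx => obtain ⟨m, j, k, h1, h2, h3, rfl⟩ := hx; exact h m j k h1 h2 h3
  | zero => exact ⟨0, zero_mem _, fun θ _ => by simpa using hasDerivAt_const θ (0 : ℂ),
      tendsto_const_nhds⟩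
  | add x y _ _ hx hy =>
    obtain ⟨x', h1, h2⟩ := hx
    obtain ⟨y', h3, h4⟩ := hy
    exact ⟨x' + y', add_mem h1 h3, by rw [mul_add]; exact h2.add h4⟩
  | smul q x _ hx =>
    obtain ⟨x', h1, h2⟩ := hx
    exact ⟨q • x', Submodule.smul_mem _ _ h1, by rw [mul_smul_comm]; exact h2.smul q⟩

lemma prim_A {w d : ℕ} {b : ℝ → ℂ} (hb : b ∈ B w d) :
    ∃ b' ∈ B (w + 2) (d + 1), Pr ((fun t => I * (A t : ℂ)) * b) b' := by
  refine prim_of_gen _ (fun m j k h1 h2 h3 => ?_) hb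
  refine ⟨(-1 : ℚ) • gf (w + 2) m 0 ((j + 2) :: k), Submodule.smul_mem _ _ (gf_mem
    (by simpa using h1) (by simpa using h2) (by rw [List.sum_cons]; omega)), fun θ hθ => ?_, ?_⟩
  · have h4 := ((((hasDerivAt_F (j + 2) k hθ).const_mul (π ^ m)).ofReal_comp).const_mul
      (I ^ (w + 2 + (k.length + 1)))).const_smul (-1 : ℚ)
    have e : (-1 : ℚ) • gf (w + 2) m 0 ((j + 2) :: k) = (-1 : ℚ) • fun y =>
        I ^ (w + 2 + (k.length + 1)) * ((π ^ m * F ((j + 2) :: k) y : ℝ) : ℂ) := by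
      congr 1
      funext y
      simp [gf]
    rw [e]
    refine h4.congr_deriv ?_
    simp only [gf, Pi.mul_apply, Nat.add_sub_cancel, neg_smul, one_smul]
    push_cast
    have : I ^ (w + 2 + (k.length + 1)) = -(I * I ^ (w + k.length)) := by
      rw [show w + 2 + (k.length + 1) = w + k.length + 1 + 2 by ring, pow_add, Complex.I_sq]
      ring
    rw [this]
    ring
  · refine tendsto_of_contOn ((contOn_gf _ _ _ _).const_smul _) ?_
    simp [gf, F_zero]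

lemma hasDerivAt_pow_sub (j : ℕ) (θ : ℝ) :
    HasDerivAt (fun t : ℝ => (t - π / 3) ^ (j + 1)) ((j + 1) * (θ - π / 3) ^ j) θ := by
  have := ((hasDerivAt_id θ).sub_const (π / 3)).fun_pow (j + 1)
  simp only [id, Nat.add_sub_cancel, mul_one] at this
  exact this.congr_deriv (by push_cast; ring)

lemma prim_one {w d : ℕ} {b : ℝ → ℂ} (hb : b ∈ B w d) :
    ∃ b' ∈ B (w + 1) d, Pr ((fun _ => I) * b) b' := by
  refine prim_of_gen _ (fun m j k h1 h2 h3 => ?_) hb
  have hj : ((j : ℂ) + 1) ≠ 0 := by exact_mod_cast Nat.succ_ne_zero j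
  cases k with
  | nil =>
    refine ⟨(1 / (j + 1) : ℚ) • (gf (w + 1) m (j + 1) [] -
      ((-1 / 3) ^ (j + 1) : ℚ) • gf (w + 1) (m + (j + 1)) 0 []), Submodule.smul_mem _ _ (sub_mem
        (gf_mem h1 h2 (by omega)) (Submodule.smul_mem _ _ (gf_mem h1 h2 (by omega)))),
      fun θ hθ => ?_, ?_⟩
    · have h4 := ((((hasDerivAt_pow_sub j θ).const_mul (π ^ m)).ofReal_comp).const_mul
        (I ^ (w + 1))).sub_const (((-1 / 3) ^ (j + 1) : ℚ) • (I ^ (w + 1) * π ^ (m + (j + 1))))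
      have e : gf (w + 1) m (j + 1) [] - ((-1 / 3) ^ (j + 1) : ℚ) • gf (w + 1) (m + (j + 1)) 0 [] =
          fun y : ℝ => I ^ (w + 1) * ((π ^ m * (y - π / 3) ^ (j + 1) : ℝ) : ℂ) -
            ((-1 / 3) ^ (j + 1) : ℚ) • (I ^ (w + 1) * π ^ (m + (j + 1))) := by
        funext y
        simp [gf, F]
      rw [e]
      refine (h4.const_smul _).congr_deriv ?_
      simp only [gf, F, Pi.mul_apply, List.length_nil, Rat.smul_def]
      push_cast
      field_simp
      ring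
    · refine tendsto_of_contOn (((contOn_gf _ _ _ _).sub
        ((contOn_gf _ _ _ _).const_smul _)).const_smul _) ?_
      simp only [gf, F, Pi.smul_apply, Pi.sub_apply, Rat.smul_def]
      push_cast
      rw [show (0 : ℂ) - π / 3 = -1 / 3 * π by ring, mul_pow]
      ring
  | cons a k =>
    have ha : 2 ≤ a := h2 a List.mem_cons_self
    rw [List.sum_cons] at h3
    refine ⟨(1 / (j + 1) : ℚ) • (gf (w + 1) m (j + 1) (a :: k) -
      gf (w + 1) m 0 ((a + (j + 1)) :: k)), Submodule.smul_mem _ _ (sub_mem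
        (gf_mem h1 h2 (by rw [List.sum_cons]; omega)) (gf_mem h1 (fun b hb => ?_)
          (by rw [List.sum_cons]; omega))), fun θ hθ => ?_, ?_⟩
    · rcases List.mem_cons.1 hb with rfl | hb
      · omega
      · exact h2 b (List.mem_cons_of_mem _ hb)
    · have h4 := (((((hasDerivAt_pow_sub j θ).mul (hasDerivAt_F a k hθ)).sub
        (hasDerivAt_F (a + (j + 1)) k hθ)).const_mul (π ^ m)).ofReal_comp).const_mul
        (I ^ (w + 1 + (k.length + 1)))
      have e : gf (w + 1) m (j + 1) (a :: k) - gf (w + 1) m 0 ((a + (j + 1)) :: k) =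
          fun y : ℝ => I ^ (w + 1 + (k.length + 1)) * ((π ^ m *
            ((fun t : ℝ => (t - π / 3) ^ (j + 1)) * F (a :: k) - F ((a + (j + 1)) :: k)) y : ℝ) : ℂ) := by
        funext y
        simp only [gf, Pi.sub_apply, Pi.mul_apply, List.length_cons]
        push_cast
        ring
      rw [e]
      refine (h4.const_smul _).congr_deriv ?_
      simp only [gf, Pi.mul_apply, List.length_cons, Rat.smul_def]
      rw [show a + (j + 1) - 2 = a - 2 + (j + 1) by omega]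
      push_cast
      field_simp
      ring
    · refine tendsto_of_contOn (((contOn_gf _ _ _ _).sub (contOn_gf _ _ _ _)).const_smul _) ?_
      simp [gf, F_zero]

lemma eval_B {w d : ℕ} {b : ℝ → ℂ} (hb : b ∈ B w d) :
    (if Even w then (b (π / 3)).re else (b (π / 3)).im) ∈ Submodule.span ℚ (Se w d) := by
  induction hb using Submodule.span_induction with
  | mem x hx =>
    obtain ⟨m, j, k, h1, h2, h3, rfl⟩ := hx
    rcases Nat.eq_zero_or_pos j with rfl | hj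
    swap
    · simp [gf, hj.ne']
    have hm : ∀ q : ℤ, (Even k.length ∨ q = 0) →
        (q : ℝ) * (π ^ m * F k (π / 3)) ∈ Submodule.span ℚ (Se w d) := fun q hq => by
      rcases hq with hq | rfl
      · rw [← zsmul_eq_mul]
        exact zsmul_mem (Submodule.subset_span (s := Se w d) ⟨m, k, hq, h1, h2, h3, rfl⟩) q
      · simp
    simp only [gf, pow_zero, mul_one, Complex.re_mul_ofReal, Complex.im_mul_ofReal]
    rcases Nat.even_or_odd' (w + k.length) with ⟨n, hn | hn⟩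
    · rw [hn, pow_mul, Complex.I_sq]
      split_ifs with hw
      · have := hm ((-1) ^ n) (Or.inl (by rw [Nat.even_iff] at hw ⊢; omega))
        rw [show ((-1 : ℂ) ^ n) = (((-1 : ℤ) ^ n : ℤ) : ℂ) by push_cast; rfl, Complex.intCast_re]
        exact this
      · rw [show ((-1 : ℂ) ^ n) = (((-1 : ℤ) ^ n : ℤ) : ℂ) by push_cast; rfl, Complex.intCast_im]
        simp
    · rw [hn, pow_succ, pow_mul, Complex.I_sq,
        show ((-1 : ℂ) ^ n) = (((-1 : ℤ) ^ n : ℤ) : ℂ) by push_cast; rfl]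
      split_ifs with hw
      · rw [Complex.mul_I_re, Complex.intCast_im]
        simp
      · have := hm ((-1) ^ n) (Or.inl (by rw [Nat.even_iff] at hw ⊢; omega))
        rw [Complex.mul_I_im, Complex.intCast_re]
        exact this
  | zero => simp
  | add x y _ _ hx hy =>
    have := add_mem hx hy
    split_ifs at this ⊢ <;> simpa using this
  | smul q x _ hx =>
    have := Submodule.smul_mem _ q hx
    split_ifs at this ⊢ <;> simpa using this

/-- the arc -/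
noncomputable def arc (θ : ℝ) : ℂ := 1 - Complex.exp (I * ((-θ : ℝ) : ℂ))

lemma norm_arc (θ : ℝ) : ‖arc θ‖ = |2 * sin (θ / 2)| := by
  unfold arc
  rw [norm_sub_rev, Complex.norm_exp_I_mul_ofReal_sub_one, neg_div, sin_neg, mul_neg, norm_neg,
    Real.norm_eq_abs]

lemma arc_mem {θ : ℝ} (h : θ ∈ Ioo 0 (π / 3)) : ‖arc θ‖ < 1 ∧ arc θ ≠ 0 := by
  have hs := sin_half_pos h.1 h.2.le
  have h1 : sin (θ / 2) < sin (π / 6) :=
    sin_lt_sin_of_lt_of_le_pi_div_two (by linarith [h.1, pi_pos]) (by linarith [pi_pos])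
      (by linarith [h.2])
  rw [sin_pi_div_six] at h1
  rw [← norm_pos_iff, norm_arc, abs_of_pos (by positivity)]
  constructor <;> linarith

lemma hasDerivAt_arc (θ : ℝ) : HasDerivAt arc (I * (1 - arc θ)) θ := by
  have h := ((((hasDerivAt_neg θ).ofReal_comp).const_mul I).cexp).const_sub 1
  refine h.congr_deriv ?_
  unfold arc
  push_cast
  ring

lemma arc_zero : arc 0 = 0 := by simp [arc]

lemma arc_end : arc (π / 3) = Complex.exp (π / 3 * I) := by
  unfold arc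
  rw [mul_comm I, show ((π : ℂ) / 3) = ((π / 3 : ℝ) : ℂ) by push_cast; rfl, Complex.exp_mul_I,
    Complex.exp_mul_I, ← Complex.ofReal_cos, ← Complex.ofReal_cos, ← Complex.ofReal_sin,
    ← Complex.ofReal_sin, cos_neg, sin_neg, cos_pi_div_three]
  push_cast
  ring

lemma arc_log {θ : ℝ} (h : θ ∈ Ioo 0 (π / 3)) : I * (1 - arc θ) / arc θ =
    ((cos (θ / 2) / (2 * sin (θ / 2)) : ℝ) : ℂ) - I / 2 := by
  have hs : ((sin (θ / 2) : ℝ) : ℂ) ≠ 0 := by exact_mod_cast (sin_half_pos h.1 h.2.le).ne'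
  rw [div_eq_iff (arc_mem h).2]
  have e : Complex.exp (I * ((-θ : ℝ) : ℂ)) =
      (((cos (θ / 2) : ℝ) : ℂ) - ((sin (θ / 2) : ℝ) : ℂ) * I) ^ 2 := by
    rw [show I * ((-θ : ℝ) : ℂ) = (2 : ℕ) * (((-(θ / 2) : ℝ) : ℂ) * I) by push_cast; ring,
      Complex.exp_nat_mul, Complex.exp_mul_I, ← Complex.ofReal_cos, ← Complex.ofReal_sin, cos_neg,
      sin_neg]
    push_cast
    ring
  have h1 : ((cos (θ / 2) : ℝ) : ℂ) ^ 2 + ((sin (θ / 2) : ℝ) : ℂ) ^ 2 = 1 := by
    exact_mod_cast cos_sq_add_sin_sq (θ / 2)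
  unfold arc
  rw [e, Complex.ofReal_div, Complex.ofReal_mul, Complex.ofReal_ofNat]
  generalize ((cos (θ / 2) : ℝ) : ℂ) = C at *
  generalize ((sin (θ / 2) : ℝ) : ℂ) = s at *
  field_simp
  linear_combination (C - s * I) * h1 + (s ^ 3 * I - s ^ 2 * C) * Complex.I_sq

/-- the polylogarithm along the arc -/
noncomputable def g (k : List ℕ) (θ : ℝ) : ℂ := Li k (arc θ)

lemma tendsto_arc_zero : Tendsto arc (𝓝[>] 0) (𝓝 0) := by
  have := (hasDerivAt_arc 0).continuousAt.tendsto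
  rw [arc_zero] at this
  exact this.mono_left nhdsWithin_le_nhds

lemma tendsto_g (a : ℕ) (k : List ℕ) : Tendsto (g (a :: k)) (𝓝[>] 0) (𝓝 0) := by
  have := (differentiableAt_Li (a :: k) (z := 0) (by simp)).continuousAt.tendsto
  rw [Li_zero] at this
  exact this.comp tendsto_arc_zero

lemma pr_one (k : List ℕ) : Pr ((fun _ => I) * g k) (g (1 :: k)) := by
  refine ⟨fun θ hθ => ?_, tendsto_g _ _⟩
  obtain ⟨h1, h2⟩ := arc_mem hθ
  have h3 : 1 - arc θ ≠ 0 := fun h => by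
    rw [sub_eq_zero] at h
    rw [← h] at h1
    simp at h1
  refine ((hasDerivAt_one k h1 h2).comp θ (hasDerivAt_arc θ)).congr_deriv ?_
  simp only [Pi.mul_apply, g]
  field_simp

lemma pr_two (k : List ℕ) : Pr (fun θ => (((cos (θ / 2) / (2 * sin (θ / 2)) : ℝ) : ℂ) - I / 2) *
    g (1 :: k) θ) (g (2 :: k)) := by
  refine ⟨fun θ hθ => ?_, tendsto_g _ _⟩
  obtain ⟨h1, h2⟩ := arc_mem hθ
  refine ((hasDerivAt_succ 1 k h1 h2).comp θ (hasDerivAt_arc θ)).congr_deriv ?_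
  dsimp only
  rw [← arc_log hθ]
  simp only [g]
  ring

lemma tendsto_A_g (a : ℕ) (k : List ℕ) :
    Tendsto (fun θ => (A θ : ℂ) * g (a :: k) θ) (𝓝[>] 0) (𝓝 0) := by
  have h1 : (fun z => Li (a :: k) z) =O[𝓝 0] fun z : ℂ => z := by
    simpa [Li_zero] using (differentiableAt_Li (a :: k) (z := 0) (by simp)).isBigO_sub
  have h2 := ((Asymptotics.isBigO_refl (fun θ => (A θ : ℂ)) _).mul
    (h1.comp_tendsto tendsto_arc_zero))
  refine h2.trans_tendsto ?_
  rw [tendsto_zero_iff_norm_tendsto_zero]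
  have h3 := ((continuous_mul_log.tendsto 0).comp
    (tendsto_zero_iff_norm_tendsto_zero.1 tendsto_arc_zero)).norm
  simp only [zero_mul, norm_zero] at h3
  refine h3.congr fun θ => ?_
  simp only [Function.comp, norm_mul, norm_norm, Complex.norm_real, A, ← norm_arc]
  ring

/-- the function belongs to the class -/
def P (w d : ℕ) (f : ℝ → ℂ) : Prop := ∃ b ∈ B w d, EqOn f b (Ioo 0 (π / 3))

/-- the function belongs to the class up to a term with the factor `A` -/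
def Q (w d : ℕ) (f : ℝ → ℂ) : Prop := ∃ b₁ ∈ B w d, ∃ b₂ ∈ B (w + 1) (d + 1),
  EqOn f (fun θ => (A θ : ℂ) * b₁ θ + b₂ θ) (Ioo 0 (π / 3))

lemma P_one {w d : ℕ} {k : List ℕ} (h : P w d (g k)) : P (w + 1) d (g (1 :: k)) := by
  obtain ⟨b, hb, h⟩ := h
  obtain ⟨b', hb', h'⟩ := prim_one hb
  exact ⟨b', hb', ((pr_one k).congr fun θ hθ => by simp only [Pi.mul_apply, h hθ]).unique h'⟩

lemma Q_one {w d : ℕ} {k : List ℕ} (h : Q w d (g k)) : P (w + 2) (d + 1) (g (1 :: k)) := by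
  obtain ⟨b₁, hb₁, b₂, hb₂, h⟩ := h
  obtain ⟨c₁, hc₁, h₁⟩ := prim_A hb₁
  obtain ⟨c₂, hc₂, h₂⟩ := prim_one hb₂
  refine ⟨c₁ + c₂, add_mem hc₁ hc₂, ((pr_one k).congr fun θ hθ => ?_).unique (h₁.add h₂)⟩
  simp only [Pi.mul_apply, Pi.add_apply, h hθ]
  ring

lemma P_two {w d : ℕ} {k : List ℕ} (h : P w d (g k)) : Q (w + 1) d (g (2 :: k)) := by
  obtain ⟨b₁, hb₁, h₁⟩ := P_one h
  obtain ⟨b, hb, h⟩ := h
  obtain ⟨c₁, hc₁, p₁⟩ := prim_A hb
  obtain ⟨c₂, hc₂, p₂⟩ := prim_one hb₁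
  have p₀ : Pr (fun θ => ((cos (θ / 2) / (2 * sin (θ / 2)) : ℝ) : ℂ) * g (1 :: k) θ +
      (A θ : ℂ) * (I * g k θ)) fun θ => (A θ : ℂ) * g (1 :: k) θ :=
    ⟨fun θ hθ => (hasDerivAt_A hθ.1 hθ.2.le).ofReal_comp.mul ((pr_one k).1 θ hθ), tendsto_A_g _ _⟩
  refine ⟨b₁, hb₁, (-1 : ℚ) • c₁ + (-1 / 2 : ℚ) • c₂, add_mem (Submodule.smul_mem _ _ hc₁)
    (Submodule.smul_mem _ _ (B_mono (Nat.le_succ d) hc₂)), fun θ hθ => ?_⟩
  have := ((pr_two k).congr fun θ hθ => ?_).unique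
    (p₀.add ((p₁.smul (-1)).add (p₂.smul (-1 / 2)))) hθ
  · rw [this]
    simp only [Pi.add_apply, h₁ hθ]
  · simp only [Pi.add_apply, Pi.smul_apply, Pi.mul_apply, Rat.smul_def, ← h hθ, ← h₁ hθ]
    push_cast
    ring

lemma main_ind (k : List ℕ) (h12 : ∀ a ∈ k, a = 1 ∨ a = 2)
    (hsep : k.IsChain fun a b => ¬ (a = 2 ∧ b = 2)) :
    (k.head? ≠ some 2 ∧ P k.sum (k.count 2) (g k)) ∨
      (k.head? = some 2 ∧ ∃ w d, k.sum = w + 1 ∧ k.count 2 = d + 1 ∧ Q w d (g k)) := by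
  induction k with
  | nil =>
    refine Or.inl ⟨by simp, gf 0 0 0 [], gf_mem le_rfl (by simp) rfl, fun θ _ => ?_⟩
    simp [g, Li_nil, gf, F]
  | cons a k ih =>
    have ih := ih (fun b hb => h12 b (List.mem_cons_of_mem _ hb)) hsep.tail
    rcases h12 a List.mem_cons_self with rfl | rfl
    · refine Or.inl ⟨by simp, ?_⟩
      rw [List.sum_cons, List.count_cons_of_ne (by norm_num), add_comm]
      rcases ih with ⟨-, h⟩ | ⟨-, w, d, h1, h2, h⟩
      · exact P_one h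
      · rw [h1, h2]; exact Q_one h
    · rcases ih with ⟨-, h⟩ | ⟨h, -⟩
      · exact Or.inr ⟨rfl, k.sum + 1, k.count 2, by rw [List.sum_cons]; ring,
          List.count_cons_self, P_two h⟩
      · exact absurd ⟨rfl, rfl⟩ (hsep.rel_head? (y := 2) h)

lemma limit_eq {f : ℂ → ℂ} {L : ℂ}
    (hL : Tendsto f (𝓝[ball (0 : ℂ) 1] (Complex.exp (π / 3 * I))) (𝓝 L)) {b : ℝ → ℂ}
    (hb : ContinuousWithinAt b (Icc 0 (π / 3)) (π / 3))
    (h : EqOn (fun θ => f (arc θ)) b (Ioo 0 (π / 3))) : L = b (π / 3) := by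
  have h1 : Tendsto arc (𝓝[<] (π / 3)) (𝓝[ball (0 : ℂ) 1] (Complex.exp (π / 3 * I))) := by
    refine tendsto_nhdsWithin_iff.2 ⟨?_, ?_⟩
    · rw [← arc_end]
      exact (hasDerivAt_arc _).continuousAt.tendsto.mono_left nhdsWithin_le_nhds
    · filter_upwards [Ioo_mem_nhdsLT c_pos] with θ hθ using mem_ball_zero_iff.2 (arc_mem hθ).1
  have h2 : Tendsto b (𝓝[<] (π / 3)) (𝓝 (b (π / 3))) :=
    hb.tendsto.mono_left (nhdsWithin_le_of_mem (Icc_mem_nhdsLT c_pos))
  refine tendsto_nhds_unique ((hL.comp h1).congr' ?_) h2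
  filter_upwards [Ioo_mem_nhdsLT c_pos] with θ hθ using h hθ

theorem sparse_twos (k : List ℕ) (h12 : ∀ a ∈ k, a = 1 ∨ a = 2)
    (hsep : k.IsChain fun a b => ¬ (a = 2 ∧ b = 2)) :
    ∃ L : ℂ, Tendsto (Li k) (𝓝[ball (0 : ℂ) 1] (Complex.exp (π / 3 * I))) (𝓝 L) ∧
      (if Even k.sum then L.re else L.im) ∈ Submodule.span ℚ (Se k.sum (k.count 2)) := by
  obtain ⟨-, L, hL⟩ := good_Li (ζ := Complex.exp (π / 3 * I))
    (by rw [← arc_end, norm_arc, show π / 3 / 2 = π / 6 by ring, sin_pi_div_six]; norm_num)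
    (by rw [← arc_end, arc, sub_sub_cancel, mul_comm, Complex.norm_exp_ofReal_mul_I]) k
    fun a ha => by rcases h12 a ha with rfl | rfl <;> norm_num
  refine ⟨L, hL, ?_⟩
  have hc : π / 3 ∈ Icc 0 (π / 3) := right_mem_Icc.2 c_pos.le
  rcases main_ind k h12 hsep with ⟨-, b, hb, h⟩ | ⟨-, w, d, h1, h2, b₁, hb₁, b₂, hb₂, h⟩
  · rw [limit_eq hL (contOn_B hb _ hc) h]
    exact eval_B hb
  · have hA : ContinuousWithinAt (fun θ => (A θ : ℂ)) (Icc 0 (π / 3)) (π / 3) :=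
      (hasDerivAt_A c_pos le_rfl).ofReal_comp.continuousAt.continuousWithinAt
    rw [limit_eq hL ((hA.mul (contOn_B hb₁ _ hc)).add (contOn_B hb₂ _ hc)) h, h1, h2]
    simpa [A_end] using eval_B hb₂

end Pool.Agent.Lib.MP_dda4e9_nt
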