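import Mathlib

/-! Multiple polylogarithms and shifted log-sine integrals.  An index `(k₁, …, kₙ)` is written as
the list `[kₙ, …, k₁]`. -/

set_option autoImplicit false

namespace Pool.Agent.Lib.MP_dda4e9_nt

open Real

/-- `co [kₙ, …, k₁] m` is the sum of `1 / (m₁ ^ k₁ ⋯ mₙ ^ kₙ)` over `0 < m₁ < ⋯ < mₙ = m`;
for the empty index it is `1` at `m = 0` and `0` elsewhere. -/
noncomputable def co : List ℕ → ℕ → ℝ
  | [], m => if m = 0 then 1 else 0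
  | a :: k, m => (∑ j ∈ Finset.range m, co k j) / (m : ℝ) ^ a

/-- the multiple polylogarithm on the unit disc -/
noncomputable def Li (k : List ℕ) (z : ℂ) : ℂ := ∑' m : ℕ, (co k m : ℂ) * z ^ m

/-- `A θ = log |2 sin (θ / 2)|` -/
noncomputable def A (θ : ℝ) : ℝ := log |2 * sin (θ / 2)|

/-- the iterated integral of `∏ (θᵤ - π / 3) ^ (kᵤ - 2) A θᵤ` over `0 < θ₁ < ⋯ < θₙ < θ` -/
noncomputable def F : List ℕ → ℝ → ℝ
  | [], _ => 1
  | a :: k, θ => ∫ t in (0 : ℝ)..θ, (t - π / 3) ^ (a - 2) * A t * F k t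

/-- the set `S^e_{w,d}` -/
def Se (w d : ℕ) : Set ℝ :=
  {x | ∃ (m : ℕ) (k : List ℕ), Even k.length ∧ k.length ≤ d ∧ (∀ a ∈ k, 2 ≤ a) ∧
    m + k.sum = w ∧ x = π ^ m * F k (π / 3)}

end Pool.Agent.Lib.MP_dda4e9_nt
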