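import Pool.Agent.Lib.MP_dda4e9_nt.Defs

/-! Derivatives of multiple polylogarithms and their boundary values. -/

set_option autoImplicit false

namespace Pool.Agent.Lib.MP_dda4e9_nt

open Finset Filter Topology Metric

/-- polynomial growth -/
def PG (c : ℕ → ℂ) : Prop := ∃ p : ℕ, ∀ m, ‖c m‖ ≤ ((m : ℝ) + 1) ^ p

/-- the sum of a power series -/
noncomputable def S (c : ℕ → ℂ) (z : ℂ) : ℂ := ∑' m : ℕ, c m * z ^ m

lemma summable_pg (p : ℕ) {r : ℝ} (h0 : 0 < r) (h1 : r < 1) :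
    Summable fun m : ℕ => ((m : ℝ) + 1) ^ p * r ^ m := by
  have h := (summable_nat_add_iff 1).2
    (summable_pow_mul_geometric_of_norm_lt_one p (r := r) (by rwa [Real.norm_of_nonneg h0.le]))
  refine (h.mul_left r⁻¹).congr fun m => ?_
  push_cast
  field_simp
  ring

lemma PG.summable {c : ℕ → ℂ} (hc : PG c) {z : ℂ} (hz : ‖z‖ < 1) :
    Summable fun m : ℕ => c m * z ^ m := by
  obtain ⟨p, hp⟩ := hc
  obtain ⟨r, h1, h2⟩ := exists_between hz
  refine Summable.of_norm_bounded (summable_pg p ((norm_nonneg z).trans_lt h1) h2) fun m => ?_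
  rw [norm_mul, norm_pow]
  exact mul_le_mul (hp m) (pow_le_pow_left₀ (norm_nonneg _) h1.le m) (by positivity)
    (by positivity)

lemma PG.shift_mul {c : ℕ → ℂ} (hc : PG c) {z : ℂ} (hz : ‖z‖ < 1) :
    z * S (fun m => c (m + 1)) z = S c z - c 0 := by
  unfold S
  rw [(hc.summable hz).tsum_eq_zero_add, ← tsum_mul_left]
  simp only [pow_zero, mul_one, add_sub_cancel_left]
  exact tsum_congr fun m => by ring

lemma PG.hasDerivAt {c : ℕ → ℂ} (hc : PG c) {z : ℂ} (hz : ‖z‖ < 1) :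
    HasDerivAt (S c) (S (fun m => ((m : ℂ) + 1) * c (m + 1)) z) z := by
  obtain ⟨r, h1, h2⟩ := exists_between hz
  have h0 : 0 < r := (norm_nonneg z).trans_lt h1
  have hc' := hc
  obtain ⟨p, hp⟩ := hc'
  have hb : ∀ (m : ℕ) (y : ℂ), y ∈ ball (0 : ℂ) r →
      ‖c m * (m * y ^ (m - 1))‖ ≤ r⁻¹ * (((m : ℝ) + 1) ^ (p + 1) * r ^ m) := fun m y hy => by
    rw [mem_ball_zero_iff] at hy
    cases m with
    | zero => simp; positivity
    | succ m =>
      rw [norm_mul, norm_mul, norm_pow, Complex.norm_natCast, Nat.add_sub_cancel]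
      calc _ ≤ (((m + 1 : ℕ) : ℝ) + 1) ^ p * ((((m + 1 : ℕ) : ℝ) + 1) * r ^ m) := by
            gcongr
            · exact hp _
            · linarith
        _ = _ := by field_simp; ring
  have hs := (summable_pg (p + 1) h0 h2).mul_left r⁻¹
  have h := hasDerivAt_tsum_of_isPreconnected hs isOpen_ball (convex_ball (0 : ℂ) r).isPreconnected
    (g := fun m y => c m * y ^ m) (g' := fun m y => c m * (m * y ^ (m - 1)))
    (fun m y _ => (hasDerivAt_pow m y).const_mul (c m)) hb (mem_ball_self h0)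
    (hc.summable (by simp)) (mem_ball_zero_iff.2 h1)
  have hs' : Summable fun m : ℕ => c m * (m * z ^ (m - 1)) :=
    Summable.of_norm_bounded hs fun m => hb m z (mem_ball_zero_iff.2 h1)
  rw [hs'.tsum_eq_zero_add] at h
  have e : c 0 * (((0 : ℕ) : ℂ) * z ^ (0 - 1)) +
      ∑' m : ℕ, c (m + 1) * (((m + 1 : ℕ) : ℂ) * z ^ (m + 1 - 1)) =
      S (fun m => ((m : ℂ) + 1) * c (m + 1)) z := by
    simp only [Nat.cast_zero, zero_mul, mul_zero, zero_add, Nat.add_sub_cancel]
    exact tsum_congr fun m => by push_cast; ring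
  rw [e] at h
  exact h

lemma co_bound (k : List ℕ) : ∀ m, 0 ≤ co k m ∧ co k m ≤ ((m : ℝ) + 1) ^ k.length := by
  induction k with
  | nil => intro m; unfold co; split_ifs <;> simp
  | cons a k ih =>
    intro m
    have h0 : 0 ≤ ∑ j ∈ range m, co k j := sum_nonneg fun j _ => (ih j).1
    have h1 : ∑ j ∈ range m, co k j ≤ ((m : ℝ) + 1) ^ (k.length + 1) := by
      refine (sum_le_card_nsmul _ _ (((m : ℝ) + 1) ^ k.length) fun j hj => ?_).trans ?_
      · refine (ih j).2.trans ?_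
        have : (j : ℝ) ≤ m := by exact_mod_cast (mem_range.1 hj).le
        gcongr
      · rw [card_range, nsmul_eq_mul, pow_succ']
        gcongr
        linarith
    refine ⟨by unfold co; positivity, ?_⟩
    rcases Nat.eq_zero_or_pos m with rfl | hm
    · simp [co]
    · have : (1 : ℝ) ≤ (m : ℝ) ^ a := one_le_pow₀ (by exact_mod_cast hm)
      exact (div_le_self h0 this).trans h1

lemma pg_co (k : List ℕ) : PG fun m => (co k m : ℂ) :=
  ⟨k.length, fun m => by
    rw [Complex.norm_real, Real.norm_of_nonneg (co_bound k m).1]; exact (co_bound k m).2⟩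

lemma Li_eq (k : List ℕ) : Li k = S fun m => (co k m : ℂ) := rfl

lemma Li_nil (z : ℂ) : Li [] z = 1 := by
  unfold Li
  rw [tsum_eq_single 0 fun m hm => by simp [co, hm]]
  simp [co]

lemma Li_zero (a : ℕ) (k : List ℕ) : Li (a :: k) 0 = 0 := by
  unfold Li
  rw [tsum_eq_single 0 fun m hm => by simp [hm]]
  simp [co]

lemma hasDerivAt_succ (a : ℕ) (k : List ℕ) {z : ℂ} (hz : ‖z‖ < 1) (h0 : z ≠ 0) :
    HasDerivAt (Li ((a + 1) :: k)) (Li (a :: k) z / z) z := by
  have h := (pg_co ((a + 1) :: k)).hasDerivAt hz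
  have e : (fun m : ℕ => ((m : ℂ) + 1) * (co ((a + 1) :: k) (m + 1) : ℂ)) =
      fun m : ℕ => (co (a :: k) (m + 1) : ℂ) := by
    funext m
    have : ((m : ℂ) + 1) ≠ 0 := by exact_mod_cast Nat.succ_ne_zero m
    simp only [co]
    push_cast
    field_simp
    ring
  have h2 := (pg_co (a :: k)).shift_mul hz
  rw [e] at h
  rw [Li_eq, Li_eq]
  refine h.congr_deriv ?_
  rw [eq_div_iff h0, mul_comm, h2]
  simp [co]

lemma Li_zero_cons (k : List ℕ) {z : ℂ} (hz : ‖z‖ < 1) :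
    (1 - z) * Li (0 :: k) z = z * Li k z := by
  have h1 := (pg_co (0 :: k)).shift_mul hz
  have h2 : S (fun m => (co (0 :: k) (m + 1) : ℂ)) z = Li (0 :: k) z + Li k z := by
    unfold S Li
    rw [← ((pg_co (0 :: k)).summable hz).tsum_add ((pg_co k).summable hz)]
    refine tsum_congr fun m => ?_
    simp only [co, sum_range_succ, pow_zero, div_one]
    push_cast
    ring
  rw [h2, ← Li_eq] at h1
  have h3 : (co (0 :: k) 0 : ℂ) = 0 := by simp [co]
  rw [h3] at h1
  linear_combination -h1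

lemma hasDerivAt_one (k : List ℕ) {z : ℂ} (hz : ‖z‖ < 1) (h0 : z ≠ 0) :
    HasDerivAt (Li (1 :: k)) (Li k z / (1 - z)) z := by
  refine (hasDerivAt_succ 0 k hz h0).congr_deriv ?_
  have h1 : 1 - z ≠ 0 := fun h => by
    rw [sub_eq_zero] at h
    rw [← h] at hz
    simp at hz
  rw [div_eq_div_iff h0 h1]
  linear_combination Li_zero_cons k hz

lemma differentiableAt_Li (k : List ℕ) {z : ℂ} (hz : ‖z‖ < 1) : DifferentiableAt ℂ (Li k) z :=
  ((pg_co k).hasDerivAt hz).differentiableAt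

section boundary

variable {ζ : ℂ}

/-- the function is bounded near `ζ` and has a limit at `ζ` -/
def Good (ζ : ℂ) (f : ℂ → ℂ) : Prop :=
  (∃ C, ∀ z ∈ ball (0 : ℂ) 1 ∩ ball ζ (1 / 2), ‖f z‖ ≤ C) ∧
    ∃ L, Tendsto f (𝓝[ball (0 : ℂ) 1] ζ) (𝓝 L)

lemma good_of_deriv {f f' : ℂ → ℂ} {C : ℝ}
    (h : ∀ z ∈ ball (0 : ℂ) 1 ∩ ball ζ (1 / 2), HasDerivAt f (f' z) z)
    (hC : ∀ z ∈ ball (0 : ℂ) 1 ∩ ball ζ (1 / 2), ‖f' z‖ ≤ C) : Good ζ f := by
  have hL : LipschitzOnWith C.toNNReal f (ball (0 : ℂ) 1 ∩ ball ζ (1 / 2)) :=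
    ((convex_ball _ _).inter (convex_ball _ _)).lipschitzOnWith_of_nnnorm_hasDerivWithin_le
      (fun z hz => (h z hz).hasDerivWithinAt) fun z hz => by
        rw [← NNReal.coe_le_coe, coe_nnnorm]
        exact (hC z hz).trans (Real.le_coe_toNNReal C)
  obtain ⟨g, hg, hfg⟩ := hL.extend_finite_dimension
  constructor
  · obtain ⟨D, hD⟩ := (isCompact_closedBall (0 : ℂ) 1).exists_bound_of_continuousOn
      hg.continuous.continuousOn
    exact ⟨D, fun z hz => by rw [hfg hz]; exact hD z (ball_subset_closedBall hz.1)⟩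
  · refine ⟨g ζ, ?_⟩
    rw [← nhdsWithin_inter_of_mem' (mem_nhdsWithin_of_mem_nhds (ball_mem_nhds ζ one_half_pos))]
    exact (hg.continuous.continuousAt.tendsto.mono_left nhdsWithin_le_nhds).congr'
      (eventually_nhdsWithin_of_forall fun z hz => (hfg hz).symm)

lemma good_Li (h0 : ‖ζ‖ = 1) (h1 : ‖1 - ζ‖ = 1) (k : List ℕ) (hk : ∀ a ∈ k, 1 ≤ a) :
    Good ζ (Li k) := by
  have far : ∀ z ∈ ball (0 : ℂ) 1 ∩ ball ζ (1 / 2), 1 / 2 ≤ ‖z‖ ∧ 1 / 2 ≤ ‖1 - z‖ := fun z hz => by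
    have h2 : ‖z - ζ‖ < 1 / 2 := mem_ball_iff_norm.1 hz.2
    have h3 := norm_sub_norm_le ζ z
    have h4 := norm_sub_norm_le (1 - ζ) (1 - z)
    rw [norm_sub_rev] at h3
    rw [show 1 - ζ - (1 - z) = z - ζ by ring] at h4
    constructor <;> linarith
  have ne : ∀ z ∈ ball (0 : ℂ) 1 ∩ ball ζ (1 / 2), z ≠ 0 := fun z hz h => by
    have := (far z hz).1
    rw [h, norm_zero] at this
    linarith
  induction k with
  | nil =>
    have : Li [] = fun _ => 1 := funext Li_nil
    rw [this]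
    exact ⟨⟨1, fun _ _ => by simp⟩, 1, tendsto_const_nhds⟩
  | cons a k ih =>
    have ha := hk a List.mem_cons_self
    have ih := ih fun b hb => hk b (List.mem_cons_of_mem _ hb)
    clear hk
    induction a, ha using Nat.le_induction with
    | base =>
      obtain ⟨⟨C, hC⟩, -⟩ := ih
      refine good_of_deriv (C := C / (1 / 2))
        (fun z hz => hasDerivAt_one k (mem_ball_zero_iff.1 hz.1) (ne z hz)) fun z hz => ?_
      rw [norm_div]
      exact div_le_div₀ ((norm_nonneg _).trans (hC z hz)) (hC z hz) one_half_pos (far z hz).2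
    | succ a _ iha =>
      obtain ⟨⟨C, hC⟩, -⟩ := iha
      refine good_of_deriv (C := C / (1 / 2))
        (fun z hz => hasDerivAt_succ a k (mem_ball_zero_iff.1 hz.1) (ne z hz)) fun z hz => ?_
      rw [norm_div]
      exact div_le_div₀ ((norm_nonneg _).trans (hC z hz)) (hC z hz) one_half_pos (far z hz).1

end boundary

end Pool.Agent.Lib.MP_dda4e9_nt
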