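import Pool.Agent.Lib.MP_dda4e9_nt.LbZ
import Pool.Agent.Lib.MP_dda4e9_nt.Series

/-! The polylogarithms on a larger disc, their moments and the Schwarz estimate. -/

namespace Pool.Agent.Lib.MP_dda4e9_nt.LB

open Finset Filter Topology Metric Complex

/-- the disc of centre `-1` and radius `2` -/
abbrev Om : Set ℂ := ball (-1) 2

theorem Om_re {t : ℂ} (h : t ∈ Om) : t.re < 1 := by
  have := (re_le_norm (t - -1)).trans_lt (mem_ball_iff_norm.1 h)
  simp at this
  linarith

theorem Om_ne {t : ℂ} (h : t ∈ Om) : 1 - t ≠ 0 := fun e => by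
  have := congrArg re e
  have := Om_re h
  simp at *
  linarith

theorem Om_zero : (0 : ℂ) ∈ Om := by simp

theorem ball_sub : ball (0 : ℂ) 1 ⊆ Om := ball_subset_ball' (by simp; norm_num)

/-- `t (1 - t) F' = p` on `U` -/
def Der (U : Set ℂ) (F p : ℂ → ℂ) : Prop :=
  ∀ t ∈ U, ∃ D, HasDerivAt F D t ∧ t * (1 - t) * D = p t

section der

variable {U : Set ℂ} {F G p q : ℂ → ℂ}

theorem Der.diff (h : Der U F p) : DifferentiableOn ℂ F U := fun t ht =>
  (h t ht).choose_spec.1.differentiableAt.differentiableWithinAt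

theorem Der.congr (h : Der U F p) (e : ∀ t ∈ U, p t = q t) : Der U F q := fun t ht =>
  e t ht ▸ h t ht

theorem Der.add (h : Der U F p) (h' : Der U G q) :
    Der U (fun t => F t + G t) fun t => p t + q t := fun t ht => by
  obtain ⟨D, h1, h2⟩ := h t ht
  obtain ⟨E, h3, h4⟩ := h' t ht
  exact ⟨_, h1.add h3, by linear_combination h2 + h4⟩

theorem Der.mul (h : Der U F p) (h' : Der U G q) :
    Der U (fun t => F t * G t) fun t => p t * G t + F t * q t := fun t ht => by
  obtain ⟨D, h1, h2⟩ := h t ht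
  obtain ⟨E, h3, h4⟩ := h' t ht
  exact ⟨_, h1.mul h3, by linear_combination G t * h2 + F t * h4⟩

theorem der_const (c : ℂ) : Der U (fun _ => c) fun _ => 0 := fun t _ =>
  ⟨0, hasDerivAt_const t c, mul_zero _⟩

theorem Der.cmul (c : ℂ) (h : Der U F p) : Der U (fun t => c * F t) fun t => c * p t :=
  ((der_const c).mul h).congr fun t _ => by ring

theorem Der.sub (h : Der U F p) (h' : Der U G q) :
    Der U (fun t => F t - G t) fun t => p t - q t := by
  simpa [sub_eq_add_neg] using h.add (h'.cmul (-1))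

theorem Der.sum {ι : Type*} (s : Finset ι) {F p : ι → ℂ → ℂ} (h : ∀ i, Der U (F i) (p i)) :
    Der U (fun t => ∑ i ∈ s, F i t) fun t => ∑ i ∈ s, p i t := by
  classical
  induction s using Finset.induction_on with
  | empty => simpa using der_const 0
  | insert a s ha ih => simpa [sum_insert ha] using (h a).add ih

theorem Der.uniq {c : ℂ} {r : ℝ} (h : Der (ball c r) F p) (h' : Der (ball c r) G p)
    (h0 : 0 ∈ ball c r) (h1 : ball c r ⊆ Om) (e : F 0 = G 0) : ∀ t ∈ ball c r, F t = G t := by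
  have h2 := h.sub h'
  have h3 : ∀ t ∈ ball c r, t ≠ 0 → deriv (fun t => F t - G t) t = 0 := fun t ht e => by
    obtain ⟨D, h3, h4⟩ := h2 t ht
    rw [h3.deriv]
    simpa [e, Om_ne (h1 ht)] using h4
  have h4 : deriv (fun t => F t - G t) 0 = 0 := by
    have h5 := ((h2.diff.deriv isOpen_ball).continuousOn.continuousAt
      (isOpen_ball.mem_nhds h0)).tendsto.mono_left (nhdsWithin_le_nhds (s := {0}ᶜ))
    refine tendsto_nhds_unique h5 (tendsto_const_nhds.congr' ?_)
    filter_upwards [self_mem_nhdsWithin, mem_nhdsWithin_of_mem_nhds (isOpen_ball.mem_nhds h0)]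
      with t e ht using (h3 t ht e).symm
  intro t ht
  have := isOpen_ball.is_const_of_deriv_eq_zero (convex_ball c r).isPreconnected h2.diff
    (fun t ht => by
      by_cases e : t = 0
      exacts [e ▸ h4, h3 t ht e]) ht h0
  linear_combination this + e

end der

open Classical in
/-- the primitive vanishing at `0` -/
noncomputable def prim (g : ℂ → ℂ) : ℂ → ℂ :=
  if h : DifferentiableOn ℂ g Om then (h.isExactOn_ball.with_val_at 0 0).choose else 0

theorem prim_zero (g : ℂ → ℂ) : prim g 0 = 0 := by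
  unfold prim
  split_ifs with h
  exacts [(h.isExactOn_ball.with_val_at 0 0).choose_spec.1, rfl]

theorem prim_deriv {g : ℂ → ℂ} (h : DifferentiableOn ℂ g Om) :
    ∀ t ∈ Om, HasDerivAt (prim g) (g t) t := by
  rw [prim, dif_pos h]
  exact (h.isExactOn_ball.with_val_at 0 0).choose_spec.2

theorem prim_der {g : ℂ → ℂ} (h : DifferentiableOn ℂ g Om) :
    Der Om (prim g) fun t => t * (1 - t) * g t := fun t ht => ⟨_, prim_deriv h t ht, rfl⟩

theorem diff_div {g : ℂ → ℂ} (h : DifferentiableOn ℂ g Om) :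
    DifferentiableOn ℂ (fun t => g t / (1 - t)) Om :=
  h.div (by fun_prop) fun _ => Om_ne

theorem prim_div {g : ℂ → ℂ} (h : DifferentiableOn ℂ g Om) :
    Der Om (prim fun t => g t / (1 - t)) fun t => t * g t :=
  (prim_der (diff_div h)).congr fun t ht => by
    have := Om_ne ht
    field_simp

/-- the polylogarithm attached to the word `u` -/
noncomputable def ff (u : ℕ) : ℂ → ℂ :=
  if u = 0 then fun _ => 1 else
    prim (if u % 2 = 0 then dslope (ff (u / 2)) 0 else fun t => ff (u / 2) t / (1 - t))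
decreasing_by all_goals omega

/-- the first letter of `u` times `t (1 - t)` -/
noncomputable def kap (u : ℕ) (t : ℂ) : ℂ := if u = 0 then 0 else if u % 2 = 0 then 1 - t else t

theorem ff_nil : ff 0 = fun _ => 1 := by rw [ff, if_pos rfl]

theorem ff_zero {u : ℕ} (h : u ≠ 0) : ff u 0 = 0 := by rw [ff, if_neg h, prim_zero]

theorem ff_der (u : ℕ) : Der Om (ff u) fun t => kap u t * ff (u / 2) t := by
  induction u using Nat.strong_induction_on with
  | _ u ih =>
  by_cases h0 : u = 0
  · simpa [h0, ff_nil, kap] using der_const 1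
  have h1 := (ih (u / 2) (by omega)).diff
  rw [ff, if_neg h0]
  simp only [kap, if_neg h0]
  split_ifs with h2
  · refine (prim_der ((differentiableOn_dslope (isOpen_ball.mem_nhds Om_zero)).2 h1)).congr
      fun t _ => ?_
    have := sub_smul_dslope_of_zero (ff_zero (u := u / 2) (by omega)) t
    rw [← this, sub_zero, smul_eq_mul]
    ring
  · exact prim_div h1

theorem ff_diff (u : ℕ) : DifferentiableOn ℂ (ff u) Om := (ff_der u).diff

theorem size_half {u : ℕ} (h : u ≠ 0) : u.size = (u / 2).size + 1 := by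
  have h1 := Nat.lt_size_self u
  have h2 := Nat.lt_size_self (u / 2)
  have h3 := Nat.size_pos.2 (Nat.pos_of_ne_zero h)
  refine le_antisymm (Nat.size_le.2 (by rw [pow_succ]; omega)) ?_
  obtain ⟨k, hk⟩ : ∃ k, u.size = k + 1 := ⟨u.size - 1, by omega⟩
  rw [hk, pow_succ] at h1
  rw [hk]
  exact Nat.succ_le_succ (Nat.size_le.2 (by omega))

/-- the index attached to the word `u` -/
def idx (u : ℕ) : List ℕ :=
  if u = 0 then [] else if u % 2 = 0 then ((idx (u / 2)).headI + 1) :: (idx (u / 2)).tail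
    else 1 :: idx (u / 2)
decreasing_by all_goals omega

theorem idx_spec (u : ℕ) : (idx u).sum = u.size ∧ (∀ a ∈ idx u, 1 ≤ a) ∧
    ∀ t ∈ ball (0 : ℂ) 1, ff u t = Li (idx u) t := by
  induction u using Nat.strong_induction_on with
  | _ u ih =>
  by_cases h0 : u = 0
  · rw [idx, if_pos h0]
    simp [h0, ff_nil, Li_nil]
  obtain ⟨h1, h2, h3⟩ := ih (u / 2) (by omega)
  have h4 : Der (ball 0 1) (ff u) fun t => kap u t * Li (idx (u / 2)) t :=
    Der.congr (fun t ht => ff_der u t (ball_sub ht)) fun t ht => by rw [h3 t ht]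
  have h5 : ∀ (a k) (p : ℂ → ℂ), p 0 = 0 → (∀ t, ‖t‖ < 1 → t ≠ 0 → ∃ D,
      HasDerivAt (Li (a :: k)) D t ∧ t * (1 - t) * D = p t) → Der (ball 0 1) (Li (a :: k)) p :=
    fun a k p hp h t ht => by
      by_cases e : t = 0
      · exact ⟨_, (differentiableAt_Li _ (mem_ball_zero_iff.1 ht)).hasDerivAt, by simp [e, hp]⟩
      · exact h t (mem_ball_zero_iff.1 ht) e
  rw [idx, if_neg h0, size_half h0, ← h1]
  simp only [kap, if_neg h0] at h4
  split_ifs at h4 ⊢ with h6
  · have h7 := Nat.size_pos.2 (show 0 < u / 2 by omega)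
    cases e : idx (u / 2) with
    | nil => simp [e] at h1; omega
    | cons a k =>
      rw [e] at h2 h4
      refine ⟨by simp; ring, by simpa using fun b hb => h2 b (by simp [hb]), ?_⟩
      refine h4.uniq (h5 _ _ _ (by simp [Li_zero]) fun t ht e =>
        ⟨_, hasDerivAt_succ a k ht e, by field_simp⟩) (by simp) ball_sub ?_
      rw [ff_zero h0, Li_zero]
  · refine ⟨by simp; ring, by simpa using h2, ?_⟩
    refine h4.uniq (h5 _ _ _ (by simp) fun t ht e => ⟨_, hasDerivAt_one _ ht e, ?_⟩) (by simp)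
      ball_sub (by rw [ff_zero h0, Li_zero])
    have := Om_ne (ball_sub (mem_ball_zero_iff.2 ht))
    field_simp

/-- the moments -/
noncomputable def mm (t : ℂ) (j v w : ℕ) : ℂ := prim (fun t => t ^ j * (ff v t * ff w t)) t

/-- the products -/
noncomputable def xx (t : ℂ) (v w : ℕ) : ℂ := ff v t * ff w t

/-- the integrated products -/
noncomputable def yy (t : ℂ) (v w : ℕ) : ℂ := prim (fun t => ff v t * ff w t / (1 - t)) t

theorem diff_mm (j v w : ℕ) : DifferentiableOn ℂ (fun t => t ^ j * (ff v t * ff w t)) Om :=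
  (differentiableOn_pow j).mul ((ff_diff v).mul (ff_diff w))

theorem lam_der (u j v w : ℕ) : Der Om (fun t => lam u j (yy t v w) fun i => mm t i v w)
    fun t => t ^ (j + 1) * kap u t * xx t v w := by
  unfold lam kap
  split_ifs
  · simpa using der_const 0
  · exact (prim_der (diff_mm j v w)).congr fun t _ => by rw [xx]; ring
  · refine ((prim_div ((ff_diff v).mul (ff_diff w))).sub
      (Der.sum _ fun i => prim_der (diff_mm i v w))).congr fun t _ => ?_
    simp only [← mul_sum, ← sum_mul, xx, Pi.mul_apply]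
    linear_combination -t * (ff v t * ff w t) * mul_neg_geom_sum t (j + 1)

theorem rec_mm {z : ℂ} (hz : z ∈ Om) : Rec z (xx z) (yy z) (mm z) := fun j v w => by
  have h1 : Der Om (fun t => t ^ (j + 1)) fun t => t * (1 - t) * ((j + 1 : ℕ) * t ^ j) :=
    fun t _ => ⟨_, hasDerivAt_pow (j + 1) t, rfl⟩
  refine ((prim_der (diff_mm j v w)).cmul (j + 1)).uniq
    ((((h1.mul ((ff_der v).mul (ff_der w))).sub (lam_der v j (v / 2) w)).sub
      (lam_der w j v (w / 2))).congr fun t _ => ?_) Om_zero le_rfl ?_ z hz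
  · simp only [xx]
    push_cast
    ring
  · simp [lam, mm, yy, prim_zero]

theorem mem_cb {t : ℂ} (h1 : ‖t‖ ≤ 1) (h2 : t.re ≤ 1 / 2) :
    t ∈ closedBall (-1 : ℂ) (19 / 10) := by
  have n1 := (Complex.sq_norm t).trans (normSq_apply t)
  rw [mem_closedBall_iff_norm]
  refine abs_le_of_sq_le_sq' ?_ (by norm_num) |>.2
  simp only [Complex.sq_norm (_ - _), normSq_apply, sub_re, sub_im]
  simp
  nlinarith [norm_nonneg t]

theorem cb_sub : closedBall (-1 : ℂ) (19 / 10) ⊆ Om := closedBall_subset_ball (by norm_num)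

theorem schwarz {J : ℂ → ℂ} {c : ℕ → ℂ} {M : ℕ} {B : ℝ} (hJ : DifferentiableOn ℂ J Om)
    (hs : ∀ z, ‖z‖ < 1 → HasSum (fun r => c r * z ^ r) (J z)) (hc : ∀ r < M, c r = 0)
    (hB : ∀ t ∈ closedBall (-1 : ℂ) (19 / 10), ‖J t‖ ≤ B) {t : ℂ} (h1 : ‖t‖ ≤ 1)
    (h2 : t.re ≤ 1 / 2) : ‖J t‖ ≤ (5 / 6) ^ M * B := by
  have hp : HasFPowerSeriesAt J (FormalMultilinearSeries.ofScalars ℂ c) 0 := by
    rw [hasFPowerSeriesAt_iff]
    filter_upwards [ball_mem_nhds (0 : ℂ) one_pos] with z hz
    simpa [mul_comm] using hs z (mem_ball_zero_iff.1 hz)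
  have hK : ∀ z, z ^ M * (Function.swap dslope 0)^[M] J z = J z := fun z => by
    simpa using pow_sub_smul_iterate_dslope_of_zero (a := (0 : ℂ)) (f := J) M (fun k hk => by
      rw [← (hp.has_fpower_series_iterate_dslope_fslope k).coeff_zero 1,
        ← FormalMultilinearSeries.coeff, FormalMultilinearSeries.coeff_iterate_fslope, zero_add,
        FormalMultilinearSeries.coeff_ofScalars, hc k hk]) z
  have hd : ∀ k, DifferentiableOn ℂ ((Function.swap dslope 0)^[k] J) Om := fun k => by
    induction k with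
    | zero => exact hJ
    | succ k ih =>
      rw [Function.iterate_succ_apply']
      exact (differentiableOn_dslope (isOpen_ball.mem_nhds Om_zero)).2 ih
  set K := (Function.swap dslope 0)^[M] J
  have n1 := (Complex.sq_norm t).trans (normSq_apply t)
  have ht := mem_cb h1 h2
  have h3 := norm_le_of_forall_mem_frontier_norm_le (U := ball (-1 : ℂ) (19 / 10))
    (f := fun z => (261 / 100 - z) ^ M * K z) isBounded_ball
    (DifferentiableOn.diffContOnCl (DifferentiableOn.mono (t := Om)
      (DifferentiableOn.mul (by fun_prop) (hd M))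
      (closure_ball_subset_closedBall.trans cb_sub)))
    (C := (19 / 10) ^ M * B) (fun z hz => by
      rw [frontier_ball _ (by norm_num)] at hz
      have e : ‖261 / 100 - z‖ = 19 / 10 * ‖z‖ := by
        have e := congrArg (· ^ 2) (mem_sphere_iff_norm.1 hz)
        refine (sq_eq_sq₀ (by positivity) (by positivity)).1 ?_
        simp only [mul_pow, Complex.sq_norm, normSq_apply, sub_re, sub_im] at e ⊢
        simp at e ⊢
        linarith
      have := hB z (sphere_subset_closedBall hz)
      rw [← hK z, norm_mul, norm_pow] at this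
      rw [norm_mul, norm_pow, e, mul_pow, mul_assoc]
      gcongr) (z := t) (by rwa [closure_ball _ (by norm_num)])
  have h4 : 19 / 10 * ‖t‖ ≤ 5 / 6 * ‖261 / 100 - t‖ := by
    refine abs_le_of_sq_le_sq' ?_ (by positivity) |>.2
    simp only [mul_pow, Complex.sq_norm (_ - _), normSq_apply, sub_re, sub_im]
    simp
    nlinarith [norm_nonneg t]
  rw [norm_mul, norm_pow] at h3
  rw [← hK t, norm_mul, norm_pow]
  refine le_of_mul_le_mul_left ?_ (show (0 : ℝ) < (19 / 10) ^ M by positivity)
  calc _ = (19 / 10 * ‖t‖) ^ M * ‖K t‖ := by ring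
    _ ≤ (5 / 6 * ‖261 / 100 - t‖) ^ M * ‖K t‖ := by gcongr
    _ = (5 / 6) ^ M * (‖261 / 100 - t‖ ^ M * ‖K t‖) := by ring
    _ ≤ (5 / 6) ^ M * ((19 / 10) ^ M * B) := by gcongr
    _ = _ := by ring

end Pool.Agent.Lib.MP_dda4e9_nt.LB
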