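import Pool.Agent.Lib.MP_dda4e9_nt.LbA

/-! Values at the sixth root of unity: the graded algebra and the smallness of the forms. -/

namespace Pool.Agent.Lib.MP_dda4e9_nt.LB

open Finset Filter Topology Metric Complex

/-- the sixth root of unity -/
noncomputable def zt : ℂ := Complex.exp (Real.pi / 3 * Complex.I)

theorem zt_eq : zt = Complex.exp ((Real.pi / 3 : ℝ) * Complex.I) := by simp [zt]

theorem zt_re : zt.re = 1 / 2 := by rw [zt_eq, exp_ofReal_mul_I_re, Real.cos_pi_div_three]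

theorem zt_im : 0 < zt.im := by
  rw [zt_eq, exp_ofReal_mul_I_im, Real.sin_pi_div_three]; positivity

theorem zt_norm : ‖zt‖ = 1 := by rw [zt_eq, norm_exp_ofReal_mul_I]

theorem zt_conj : (starRingEnd ℂ) zt = 1 - zt := by
  apply Complex.ext <;> simp [zt_re]
  norm_num

theorem zt_sq : zt * zt = zt - 1 := by
  have := mul_conj' zt
  rw [zt_norm, zt_conj] at this
  simp only [ofReal_one, one_pow] at this
  linear_combination -this

theorem zt_mem : zt ∈ Om := cb_sub (mem_cb zt_norm.le zt_re.le)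

/-- the span of the functions of weight `j` -/
noncomputable def FF (j : ℕ) : Submodule ℚ (ℂ → ℂ) :=
  Submodule.span ℚ {f | ∃ u : ℕ, u.size = j ∧ f = ff u}

/-- the span of the values of weight `j` -/
noncomputable def AA (j : ℕ) : Submodule ℚ ℂ :=
  Submodule.span ℚ {z | ∃ u : ℕ, u.size = j ∧ z = ff u zt}

theorem FF_val {j : ℕ} {b : ℂ → ℂ} (h : b ∈ FF j) : b zt ∈ AA j := by
  induction h using Submodule.span_induction with
  | mem f hf => obtain ⟨u, h, rfl⟩ := hf; exact Submodule.subset_span ⟨u, h, rfl⟩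
  | zero => exact Submodule.zero_mem _
  | add f g _ _ hf hg => exact Submodule.add_mem _ hf hg
  | smul q f _ hf => exact Submodule.smul_mem _ q hf

theorem FF_int {v j : ℕ} (hv : v ≠ 0) (hj : v % 2 = 0 → 0 < j) {b : ℂ → ℂ} (h : b ∈ FF j) :
    ∃ c ∈ FF (j + 1), c 0 = 0 ∧ Der Om c fun t => kap v t * b t := by
  induction h using Submodule.span_induction with
  | mem f hf =>
    obtain ⟨u, rfl, rfl⟩ := hf
    rw [Nat.size_pos] at hj
    have h0 : 2 * u + v % 2 ≠ 0 := by omega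
    have h1 : (2 * u + v % 2) / 2 = u := by omega
    refine ⟨ff (2 * u + v % 2), Submodule.subset_span ⟨_, by rw [size_half h0, h1], rfl⟩,
      ff_zero h0, (ff_der _).congr fun t _ => ?_⟩
    rw [h1, kap, kap, if_neg h0, if_neg hv, show (2 * u + v % 2) % 2 = v % 2 by omega]
  | zero => exact ⟨0, Submodule.zero_mem _, rfl, (der_const 0).congr fun t _ => by simp⟩
  | add f g _ _ hf hg =>
    obtain ⟨c, h1, h2, h3⟩ := hf
    obtain ⟨d, h4, h5, h6⟩ := hg
    exact ⟨c + d, Submodule.add_mem _ h1 h4, by simp [h2, h5],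
      (h3.add h6).congr fun t _ => by simp [mul_add]⟩
  | smul q f _ hf =>
    obtain ⟨c, h1, h2, h3⟩ := hf
    refine ⟨q • c, Submodule.smul_mem _ q h1, by simp [h2], ?_⟩
    have : q • c = fun t => (q : ℂ) * c t := funext fun t => Rat.smul_def _ _
    rw [this]
    exact (h3.cmul q).congr fun t _ => by simp [Rat.smul_def, mul_left_comm]

theorem prod_mem (s : ℕ) : ∀ v w : ℕ, v.size + w.size = s →
    ∃ b ∈ FF s, ∀ t ∈ Om, xx t v w = b t := by
  induction s with
  | zero =>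
    intro v w h
    obtain rfl : v = 0 := Nat.size_eq_zero.1 (by omega)
    exact ⟨ff w, Submodule.subset_span ⟨w, by omega, rfl⟩, by simp [xx, ff_nil]⟩
  | succ s ih =>
    intro v w h
    by_cases hv : v = 0
    · exact ⟨ff w, Submodule.subset_span ⟨w, by simpa [hv] using h, rfl⟩, by simp [xx, hv, ff_nil]⟩
    by_cases hw : w = 0
    · exact ⟨ff v, Submodule.subset_span ⟨v, by simpa [hw] using h, rfl⟩, by simp [xx, hw, ff_nil]⟩
    have e1 := size_half hv
    have e2 := size_half hw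
    obtain ⟨b1, h1, h2⟩ := ih (v / 2) w (by omega)
    obtain ⟨b2, h3, h4⟩ := ih v (w / 2) (by omega)
    obtain ⟨c1, h5, h6, h7⟩ := FF_int hv (fun _ => by omega) h1
    obtain ⟨c2, h8, h9, h10⟩ := FF_int hw (fun _ => by omega) h3
    refine ⟨c1 + c2, Submodule.add_mem _ h5 h8, ((ff_der v).mul (ff_der w)).uniq
      ((h7.add h10).congr fun t ht => ?_) Om_zero le_rfl (by simp [h6, h9, ff_zero hv])⟩
    rw [← h2 t ht, ← h4 t ht, xx, xx]
    ring

theorem xx_mem (v w : ℕ) : xx zt v w ∈ AA (v.size + w.size) := by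
  obtain ⟨b, h1, h2⟩ := prod_mem _ v w rfl
  exact h2 zt zt_mem ▸ FF_val h1

theorem yy_mem (v w : ℕ) : yy zt v w ∈ AA (v.size + w.size + 1) := by
  obtain ⟨b, h1, h2⟩ := prod_mem _ v w rfl
  obtain ⟨c, h3, h4, h5⟩ := FF_int one_ne_zero (by simp) h1
  have := (prim_div ((ff_diff v).mul (ff_diff w))).uniq (h5.congr fun t ht => by
    rw [← h2 t ht]; simp [kap, xx]) Om_zero le_rfl (by rw [prim_zero, h4]) zt zt_mem
  exact (show yy zt v w = c zt from this) ▸ FF_val h3

theorem AA_mul {j : ℕ} {z : ℂ} (h : z ∈ AA j) (w : ℕ) : z * ff w zt ∈ AA (j + w.size) := by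
  induction h using Submodule.span_induction with
  | mem f hf => obtain ⟨u, rfl, rfl⟩ := hf; exact xx_mem u w
  | zero => simp
  | add f g _ _ hf hg => rw [add_mul]; exact Submodule.add_mem _ hf hg
  | smul q f _ hf => rw [smul_mul_assoc]; exact Submodule.smul_mem _ q hf

theorem ff_one : ∀ t ∈ Om, ff 1 t = -log (1 - t) := by
  refine (ff_der 1).uniq (fun t ht => ⟨_, (((hasDerivAt_id t).const_sub 1).clog
    (Or.inl (by simpa using Om_re ht))).neg, ?_⟩) Om_zero le_rfl (by simp [ff_zero])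
  have := Om_ne ht
  simp only [kap, ff_nil, id, Nat.reduceDiv]
  field_simp
  simp

theorem seg_mem {s : ℝ} (h : s ∈ Set.Icc (0 : ℝ) 1) : s * zt ∈ Om :=
  cb_sub (mem_cb (by rw [norm_mul, zt_norm, mul_one, norm_real, Real.norm_of_nonneg h.1]; exact h.2)
    (by simp only [re_ofReal_mul, zt_re]; linarith [h.2]))

theorem im_one {s : ℝ} (h0 : 0 < s) (h1 : s ≤ 1) : (ff 1 (s * zt)).im ≠ 0 := by
  rw [ff_one _ (seg_mem ⟨h0.le, h1⟩), neg_im, log_im, neg_ne_zero, Ne, arg_eq_zero_iff]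
  simp [h0.ne', zt_im.ne']

theorem re_one : (ff 1 zt).re = 0 := by
  rw [ff_one _ zt_mem, neg_re, log_re, ← zt_conj, norm_conj, zt_norm, Real.log_one, neg_zero]

theorem im_two : (ff 2 zt).im ≠ 0 := fun h => by
  have hd : ∀ s ∈ Set.Icc (0 : ℝ) 1, HasDerivAt (fun s : ℝ => (ff 2 (s * zt)).im)
      (deriv (ff 2) (s * zt) * zt).im s := fun s hs => by
    have h1 := ((ff_diff 2).differentiableAt (isOpen_ball.mem_nhds (seg_mem hs))).hasDerivAt
    have h2 := (h1.comp (s : ℂ) (hasDerivAt_mul_const zt)).comp_ofReal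
    exact imCLM.hasFDerivAt.comp_hasDerivAt s h2
  obtain ⟨s, hs, e⟩ := exists_hasDerivAt_eq_zero zero_lt_one
    (fun s hs => (hd s hs).continuousAt.continuousWithinAt) (by simp [h, ff_zero])
    fun s hs => hd s (Set.Ioo_subset_Icc_self hs)
  have hm := seg_mem (Set.Ioo_subset_Icc_self hs)
  obtain ⟨D, h1, h2⟩ := ff_der 2 _ hm
  rw [h1.deriv] at e
  refine im_one hs.1 hs.2.le ?_
  have h3 : ff 1 (s * zt) = s * (D * zt) := mul_left_cancel₀ (Om_ne hm) (by
    simp only [kap] at h2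
    norm_num at h2
    linear_combination -h2)
  rw [h3, im_ofReal_mul, e, mul_zero]

theorem tendsto_Li (u : ℕ) : Tendsto (Li (idx u)) (𝓝[ball 0 1] zt) (𝓝 (ff u zt)) :=
  (((ff_diff u).continuousOn.continuousAt (isOpen_ball.mem_nhds zt_mem)).tendsto.mono_left
    nhdsWithin_le_nhds).congr' (eventually_nhdsWithin_of_forall (idx_spec u).2.2)

/-- the Taylor coefficients of `t ^ i` times a polylogarithm -/
noncomputable def cf (w i r : ℕ) : ℝ := if i ≤ r then co (idx w) (r - i) else 0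

theorem hasSum_cf (w i : ℕ) {z : ℂ} (hz : ‖z‖ < 1) :
    HasSum (fun r => (cf w i r : ℂ) * z ^ r) (z ^ i * ff w z) := by
  rw [← hasSum_nat_add_iff' i, sum_eq_zero fun r hr => by simp [cf, mem_range.1 hr], sub_zero,
    (idx_spec w).2.2 z (mem_ball_zero_iff.2 hz)]
  refine (((pg_co (idx w)).summable hz).hasSum.mul_left (z ^ i)).congr_fun fun r => ?_
  simp only [cf, le_add_iff_nonneg_left, zero_le, if_true, Nat.add_sub_cancel]
  ring

theorem small (N : ℕ) : ∃ C : ℝ, 0 ≤ C ∧ ∀ (n M : ℕ) (X : ℝ) (J : Fin N × Fin (n + 1) → ℤ),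
    (∀ q, (|J q| : ℝ) ≤ X) → (∀ r < M, ∑ q, cf q.1 q.2 r * J q = 0) → ∀ v < N, ∀ j,
      ‖∑ q : Fin N × Fin (n + 1), mm zt (q.2 + j) v q.1 * J q‖ ≤
        C * ((5 / 6) ^ M * (N * (n + 1) * (3 ^ n * C * X))) := by
  choose c hc using fun u => (isCompact_closedBall (-1 : ℂ) (19 / 10)).exists_bound_of_continuousOn
    ((ff_diff u).continuousOn.mono cb_sub)
  have hC : ∀ u < N, ∀ t ∈ closedBall (-1 : ℂ) (19 / 10), ‖ff u t‖ ≤ ∑ u ∈ range N, |c u| :=
    fun u hu t ht => ((hc u t ht).trans (le_abs_self _)).trans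
      (single_le_sum (f := fun u => |c u|) (fun _ _ => abs_nonneg _) (mem_range.2 hu))
  have hC0 : 0 ≤ ∑ u ∈ range N, |c u| := by positivity
  refine ⟨_, hC0, fun n M X J hJ he v hv j => ?_⟩
  set C := ∑ u ∈ range N, |c u|
  have h1 : ∀ t, ‖t‖ ≤ 1 → t.re ≤ 1 / 2 → ‖∑ q : Fin N × Fin (n + 1),
      t ^ (q.2 : ℕ) * ff q.1 t * J q‖ ≤ (5 / 6) ^ M * (N * (n + 1) * (3 ^ n * C * X)) := by
    intro t
    refine schwarz (J := fun t => ∑ q : Fin N × Fin (n + 1), t ^ (q.2 : ℕ) * ff q.1 t * J q)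
      (c := fun r => ∑ q : Fin N × Fin (n + 1), cf q.1 q.2 r * J q)
      (DifferentiableOn.fun_sum fun q _ =>
        ((differentiableOn_pow _).mul (ff_diff _)).mul_const _) (fun z hz => ?_)
      (fun r hr => by exact_mod_cast he r hr) fun t ht => ?_
    · refine (hasSum_sum (s := univ) fun (q : Fin N × Fin (n + 1)) _ =>
        (hasSum_cf q.1 q.2 hz).mul_right (J q : ℂ)).congr_fun fun r => ?_
      rw [sum_mul]
      exact sum_congr rfl fun q _ => by ring
    · refine (norm_sum_le _ _).trans ((sum_le_card_nsmul _ _ (3 ^ n * C * X) fun q _ => ?_).trans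
        (by simp))
      have h3 : ‖t‖ ≤ 3 := by
        have := norm_sub_norm_le t (-1)
        rw [mem_closedBall_iff_norm] at ht
        simp at this ht
        linarith
      rw [norm_mul, norm_mul, norm_pow, norm_intCast]
      refine mul_le_mul (mul_le_mul ?_ (hC _ q.1.2 t ht) (norm_nonneg _) (by positivity)) (hJ q)
        (abs_nonneg _) (by positivity)
      exact (pow_le_pow_left₀ (norm_nonneg _) h3 _).trans
        (pow_le_pow_right₀ (by norm_num) (Nat.le_of_lt_succ q.2.2))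
  have h2 := ((convex_closedBall (0 : ℂ) 1).inter
    (convex_halfSpace_re_le (1 / 2))).norm_image_sub_le_of_norm_hasDerivWithin_le
    (f := fun t => ∑ q : Fin N × Fin (n + 1), mm t (q.2 + j) v q.1 * J q)
    (f' := fun t => ∑ q : Fin N × Fin (n + 1), t ^ (q.2 + j) * (ff v t * ff q.1 t) * J q)
    (C := C * ((5 / 6) ^ M * (N * (n + 1) * (3 ^ n * C * X)))) (x := 0) (y := zt)
    (fun t ht => (HasDerivAt.fun_sum fun q _ => (prim_deriv (diff_mm _ _ _) t (cb_sub
      (mem_cb (mem_closedBall_zero_iff.1 ht.1) ht.2))).mul_const _).hasDerivWithinAt)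
    (fun t ht => by
      have h3 := mem_closedBall_zero_iff.1 ht.1
      have e : ∑ q : Fin N × Fin (n + 1), t ^ (q.2 + j) * (ff v t * ff q.1 t) * J q =
          t ^ j * ff v t * ∑ q : Fin N × Fin (n + 1), t ^ (q.2 : ℕ) * ff q.1 t * J q := by
        rw [mul_sum]
        exact sum_congr rfl fun q _ => by ring
      rw [e, norm_mul, norm_mul, norm_pow]
      refine mul_le_mul ?_ (h1 t h3 ht.2) (norm_nonneg _) hC0
      exact (mul_le_of_le_one_left (norm_nonneg _) (pow_le_one₀ (norm_nonneg _) h3)).trans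
        (hC v hv t (mem_cb h3 ht.2)))
    (by simp) ⟨mem_closedBall_zero_iff.2 zt_norm.le, zt_re.le⟩
  simpa [mm, prim_zero, zt_norm] using h2

end Pool.Agent.Lib.MP_dda4e9_nt.LB
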