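import Pool.Agent.Lib.MP_dda4e9_nt.LbB

/-! Denominators, heights and dimensions. -/

namespace Pool.Agent.Lib.MP_dda4e9_nt.LB

open Finset Module

theorem lcm_le (L : ℕ) : Nat.lcmUpto L ≤ 2 ^ (8 * L) := by
  have h := Chebyshev.psi_le_const_mul_self (x := L) L.cast_nonneg
  have h2 := Real.log_two_gt_d9
  have h4 : Real.log 4 = 2 * Real.log 2 := by
    rw [show (4 : ℝ) = 2 ^ 2 by norm_num, Real.log_pow]; norm_num
  have h5 : (0 : ℝ) < Nat.lcmUpto L := by exact_mod_cast Nat.lcmUpto_pos L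
  rw [Chebyshev.psi_eq_log_lcmUpto] at h
  have h3 : Real.log (Nat.lcmUpto L) ≤ Real.log (2 ^ (8 * L)) := by
    rw [Real.log_pow]
    push_cast
    nlinarith [L.cast_nonneg (α := ℝ)]
  exact_mod_cast (Real.log_le_log_iff h5 (by positivity)).1 h3

theorem dvd_lcm' {j L : ℕ} (h0 : 0 < j) (h : j ≤ L) : j ∣ Nat.lcmUpto L :=
  Finset.dvd_lcm (f := id) (mem_Icc.2 ⟨h0, h⟩)

theorem co_nat (M : ℕ) (k : List ℕ) :
    ∀ m ≤ M, ∃ c : ℕ, (c : ℝ) = (Nat.lcmUpto M : ℝ) ^ k.sum * co k m := by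
  induction k with
  | nil => intro m _; unfold co; split_ifs; exacts [⟨1, by simp⟩, ⟨0, by simp⟩]
  | cons a k ih =>
    intro m hm
    rcases Nat.eq_zero_or_pos m with rfl | h0
    · exact ⟨0, by simp [co]⟩
    obtain ⟨e, he⟩ := dvd_lcm' h0 hm
    choose! c hc using ih
    refine ⟨e ^ a * ∑ j ∈ range m, c j, ?_⟩
    have h1 : (m : ℝ) ≠ 0 := by positivity
    have h2 : (Nat.lcmUpto M : ℝ) ^ a = m ^ a * e ^ a := by rw [he]; push_cast; ring
    push_cast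
    rw [sum_congr rfl fun j hj => hc j ((mem_range.1 hj).le.trans hm), ← mul_sum, co,
      List.sum_cons, pow_add, h2]
    field_simp

theorem cf_nat {M a w r : ℕ} (i : ℕ) (hw : w.size ≤ a) (hr : r < M) :
    ∃ c : ℕ, (c : ℝ) = (Nat.lcmUpto M : ℝ) ^ a * cf w i r ∧ c ≤ 2 ^ (9 * M * a) := by
  unfold cf
  split_ifs
  swap
  · exact ⟨0, by simp, Nat.zero_le _⟩
  obtain ⟨h1, h2, -⟩ := idx_spec w
  obtain ⟨c, hc⟩ := co_nat M (idx w) (r - i) (by omega)
  obtain ⟨b, rfl⟩ := Nat.exists_eq_add_of_le hw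
  have e : ((Nat.lcmUpto M ^ b * c : ℕ) : ℝ) =
      (Nat.lcmUpto M : ℝ) ^ (w.size + b) * co (idx w) (r - i) := by
    push_cast
    rw [hc, h1]
    ring
  refine ⟨_, e, ?_⟩
  have h3 : (Nat.lcmUpto M : ℝ) ≤ 2 ^ (8 * M) := by exact_mod_cast lcm_le M
  have h4 : ((r - i : ℕ) : ℝ) + 1 ≤ 2 ^ M := by
    exact_mod_cast (show r - i + 1 ≤ M by omega).trans Nat.lt_two_pow_self.le
  have h5 : (idx w).length ≤ w.size + b := (List.length_le_sum_of_one_le _ h2).trans (by omega)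
  have h6 := co_bound (idx w) (r - i)
  have h7 : co (idx w) (r - i) ≤ (2 ^ M) ^ (w.size + b) :=
    h6.2.trans ((pow_le_pow_left₀ (by positivity) h4 _).trans
      (pow_le_pow_right₀ (one_le_pow₀ one_le_two) h5))
  have h8 : ((Nat.lcmUpto M ^ b * c : ℕ) : ℝ) ≤ 2 ^ (9 * M * (w.size + b)) := by
    rw [e]
    calc _ ≤ ((2 : ℝ) ^ (8 * M)) ^ (w.size + b) * (2 ^ M) ^ (w.size + b) := by
          gcongr
          exact h6.1
      _ = _ := by rw [← mul_pow, ← pow_add, ← pow_mul]; congr 1; ring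
  exact_mod_cast h8

section height

variable {ι : Type*} [Fintype ι] {θ : ι → ℂ}

/-- an integer combination of height at most `Q` -/
def Hg (θ : ι → ℂ) (Q : ℝ) (z : ℂ) : Prop :=
  ∃ l : ι → ℤ, ∑ i, (|l i| : ℝ) ≤ Q ∧ z = ∑ i, l i * θ i

theorem Hg.mono {Q Q' : ℝ} {z z' : ℂ} (h : Hg θ Q z) (h1 : Q ≤ Q') (h2 : z' = z) : Hg θ Q' z' :=
  h2 ▸ h.imp fun _ h => ⟨h.1.trans h1, h.2⟩

theorem Hg.add {Q Q' : ℝ} {z z' : ℂ} (h : Hg θ Q z) (h' : Hg θ Q' z') : Hg θ (Q + Q') (z + z') := by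
  obtain ⟨l, h1, rfl⟩ := h
  obtain ⟨l', h2, rfl⟩ := h'
  refine ⟨l + l', le_trans ?_ (add_le_add h1 h2), by simp [add_mul, sum_add_distrib]⟩
  rw [← sum_add_distrib]
  exact sum_le_sum fun i _ => by simpa using abs_add_le _ _

theorem Hg.mul {Q : ℝ} {z : ℂ} (h : Hg θ Q z) (c : ℤ) : Hg θ (|(c : ℝ)| * Q) (c * z) := by
  obtain ⟨l, h1, rfl⟩ := h
  refine ⟨fun i => c * l i, ?_, by simp [mul_sum, mul_assoc]⟩
  simp only [Int.cast_mul, abs_mul, ← mul_sum]
  gcongr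

theorem Hg.nmul {Q : ℝ} {z : ℂ} (h : Hg θ Q z) (c : ℕ) : Hg θ (c * Q) (c * z) := by
  simpa using h.mul c

theorem Hg.sub {Q Q' : ℝ} {z z' : ℂ} (h : Hg θ Q z) (h' : Hg θ Q' z') : Hg θ (Q + Q') (z - z') := by
  simpa [sub_eq_add_neg] using h.add (h'.mul (-1))

theorem hg_zero {Q : ℝ} (h : 0 ≤ Q) : Hg θ Q 0 := ⟨0, by simpa, by simp⟩

theorem hg_base (i : ι) : Hg θ 1 (θ i) := by
  classical
  exact ⟨Pi.single i 1, by simp [Pi.single_apply, apply_ite abs], by simp [Pi.single_apply]⟩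

theorem Hg.sum {κ : Type*} {s : Finset κ} {Q : ℝ} {z : κ → ℂ} (h : ∀ i ∈ s, Hg θ Q (z i)) :
    Hg θ (s.card * Q) (∑ i ∈ s, z i) := by
  classical
  induction s using Finset.induction_on with
  | empty => simpa using hg_zero le_rfl
  | insert a s ha ih =>
    refine ((h a (by simp)).add (ih fun i hi => h i (by simp [hi]))).mono (le_of_eq ?_)
      (sum_insert ha)
    rw [card_insert_of_notMem ha]
    push_cast
    ring

theorem integ {ζ : ℂ} {x y : ℕ → ℕ → ℂ} {m : ℕ → ℕ → ℕ → ℂ} (h : Rec ζ x y m) {H N L : ℕ}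
    (hx : ∀ e, ∀ v < H, ∀ w < N, Hg θ 1 (ζ ^ e * x v w) ∧ Hg θ 1 (ζ ^ e * y v w)) (s : ℕ) :
    ∀ v < H, ∀ w < N, v.size + w.size < s → ∀ j < L, ∀ e,
      Hg θ ((Nat.lcmUpto L * (2 * L + 3)) ^ s) (Nat.lcmUpto L ^ s * (ζ ^ e * m j v w)) := by
  induction s with
  | zero => intro v _ w _ h; omega
  | succ s ih =>
    intro v hv w hw hs j hj e
    obtain ⟨k, hk⟩ := dvd_lcm' j.succ_pos hj
    have hk1 : k ≤ Nat.lcmUpto L := Nat.le_of_dvd (Nat.lcmUpto_pos L) (Dvd.intro_left _ hk.symm)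
    set d := Nat.lcmUpto L
    set K : ℝ := (d * (2 * L + 3)) ^ s with hK
    have h0 : 0 ≤ K := by positivity
    have h1 : ∀ z, Hg θ 1 z → Hg θ K (d ^ s * z) := fun z hz =>
      (hz.nmul (d ^ s)).mono (by
        rw [mul_one, Nat.cast_pow]
        exact pow_le_pow_left₀ d.cast_nonneg
          (le_mul_of_one_le_right d.cast_nonneg (by linarith [L.cast_nonneg (α := ℝ)])) s)
        (by simp)
    have h2 : ∀ u y' (m' : ℕ → ℂ), Hg θ 1 (ζ ^ e * y') →
        (u ≠ 0 → ∀ i < L, Hg θ K (d ^ s * (ζ ^ e * m' i))) →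
        Hg θ (K + L * K) (d ^ s * (ζ ^ e * lam u j y' m')) := fun u y' m' hy hm => by
      unfold lam
      split_ifs with hu
      · simpa using hg_zero (by positivity)
      · exact (hm hu j hj).mono (le_add_of_nonneg_right (by positivity)) rfl
      · refine ((h1 _ hy).sub (Hg.sum (s := range (j + 1)) fun i hi =>
          hm hu i ((mem_range.1 hi).trans_le hj))).mono ?_ (by simp [mul_sub, mul_sum])
        rw [card_range]
        gcongr
        exact hj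
    refine ((((h1 _ (hx (e + (j + 1)) v hv w hw).1).sub
      (h2 v _ (fun i => m i (v / 2) w) (hx e (v / 2) (by omega) w hw).2 fun h0 i hi =>
        ih _ (by omega) _ hw (by have := size_half h0; omega) i hi e)).sub
      (h2 w _ (fun i => m i v (w / 2)) (hx e v hv (w / 2) (by omega)).2 fun h0 i hi =>
        ih _ hv _ (by omega) (by have := size_half h0; omega) i hi e)).nmul k).mono ?_ ?_
    · calc _ = k * ((2 * L + 3) * K) := by ring
        _ ≤ d * ((2 * L + 3) * K) := by gcongr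
        _ = _ := by rw [hK]; ring
    · have : (d : ℂ) = (j + 1) * k := by exact_mod_cast hk
      linear_combination (d : ℂ) ^ s * ζ ^ e * k * h j v w + (d : ℂ) ^ s * ζ ^ e * m j v w * this

end height

theorem exists_lam {V : Submodule ℚ ℂ} (h : 1 ∉ V) : ∃ Λ : ℂ →ₗ[ℚ] ℂ, Λ 1 ≠ 0 ∧
    (∀ z, Λ (zt * z) = zt * Λ z) ∧ ∀ z ∈ V, zt * z ∈ V → Λ z = 0 := by
  obtain ⟨φ, h1, h2⟩ := Submodule.exists_le_ker_of_notMem h
  refine ⟨Algebra.linearMap ℚ ℂ ∘ₗ φ -
    LinearMap.mulLeft ℚ zt ∘ₗ Algebra.linearMap ℚ ℂ ∘ₗ φ ∘ₗ LinearMap.mulLeft ℚ zt,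
    fun e => ?_, fun z => ?_, fun z hz hz' => ?_⟩
  · simp only [LinearMap.sub_apply, LinearMap.comp_apply, LinearMap.mulLeft_apply, mul_one,
      Algebra.linearMap_apply, eq_ratCast] at e
    have e1 := congrArg Complex.im e
    simp [zt_im.ne'] at e1
    simp [e1, h1] at e
  · simp only [LinearMap.sub_apply, LinearMap.comp_apply, LinearMap.mulLeft_apply,
      Algebra.linearMap_apply, eq_ratCast, ← mul_assoc, zt_sq, sub_mul, one_mul, map_sub]
    linear_combination (φ (zt * z) : ℂ) * zt_sq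
  · simp [LinearMap.mem_ker.1 (h2 hz), LinearMap.mem_ker.1 (h2 hz')]

theorem Rec.map {ζ : ℂ} {x y : ℕ → ℕ → ℂ} {m : ℕ → ℕ → ℕ → ℂ} (h : Rec ζ x y m) (Λ : ℂ →ₗ[ℚ] ℂ)
    (hΛ : ∀ z, Λ (ζ * z) = ζ * Λ z) :
    Rec ζ (fun v w => Λ (x v w)) (fun v w => Λ (y v w)) fun j v w => Λ (m j v w) := fun j v w => by
  have h1 : ∀ (k : ℕ) z, Λ (ζ ^ k * z) = ζ ^ k * Λ z := fun k z => by
    induction k with
    | zero => simp
    | succ k ih => rw [pow_succ', mul_assoc, hΛ, ih, mul_assoc]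
  have h2 : ∀ u y' m', Λ (lam u j y' m') = lam u j (Λ y') fun i => Λ (m' i) := fun u y' m' => by
    unfold lam
    split_ifs <;> simp
  have h3 := map_nsmul Λ (j + 1) (m j v w)
  simp only [nsmul_eq_mul, Nat.cast_add, Nat.cast_one] at h3
  rw [← h3, h j v w, map_sub, map_sub, h1, h2, h2]

instance (j : ℕ) : FiniteDimensional ℚ (AA j) :=
  FiniteDimensional.span_of_finite ℚ (((Set.finite_lt_nat (2 ^ j)).image fun u => ff u zt).subset
    fun _ ⟨u, h1, h2⟩ => ⟨u, Nat.size_le.1 h1.le, h2.symm⟩)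

theorem im_one' : (ff 1 zt).im ≠ 0 := by simpa using im_one one_pos le_rfl

theorem AA_mono : Monotone fun j => finrank ℚ (AA j) := monotone_nat_of_le_succ fun j =>
  LinearMap.finrank_le_finrank_of_injective
    (f := (LinearMap.mulRight ℚ (ff 1 zt)).restrict fun z hz => AA_mul (j := j) hz 1)
    fun a b e => Subtype.ext (mul_right_cancel₀ (fun e => im_one' (by simp [e]))
      (congrArg Subtype.val e))

theorem span_dim {δ : ℕ} (W : ℕ) (h : ∀ j < W, finrank ℚ (AA j) ≤ δ) :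
    ∃ E : Submodule ℚ ℂ, FiniteDimensional ℚ E ∧ finrank ℚ E ≤ 2 * (W * δ) ∧
      ∀ j < W, ∀ z ∈ AA j, ∀ e : ℕ, zt ^ e * z ∈ E := by
  obtain ⟨E, h1, h2, h3⟩ : ∃ E : Submodule ℚ ℂ, FiniteDimensional ℚ E ∧ finrank ℚ E ≤ W * δ ∧
      ∀ j < W, AA j ≤ E := by
    induction W with
    | zero => exact ⟨⊥, inferInstance, by simp, by simp⟩
    | succ W ih =>
      obtain ⟨E, h1, h2, h3⟩ := ih fun j hj => h j (by omega)
      refine ⟨E ⊔ AA W, inferInstance, (Submodule.finrank_add_le_finrank_add_finrank _ _).trans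
        (by rw [Nat.succ_mul]; exact add_le_add h2 (h W W.lt_succ_self)), fun j hj => ?_⟩
      rcases (Nat.le_of_lt_succ hj).eq_or_lt with rfl | hj
      exacts [le_sup_right, (h3 j hj).trans le_sup_left]
  refine ⟨E ⊔ E.map (LinearMap.mulLeft ℚ zt), inferInstance,
    (Submodule.finrank_add_le_finrank_add_finrank _ _).trans ?_, fun j hj z hz e => ?_⟩
  · have := Submodule.finrank_map_le (LinearMap.mulLeft ℚ zt) E
    omega
  induction e with
  | zero => simpa using Submodule.mem_sup_left (h3 j hj hz)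
  | succ e ih =>
    obtain ⟨a, ha, _, ⟨b, hb, rfl⟩, e1⟩ := Submodule.mem_sup.1 ih
    refine Submodule.mem_sup.2 ⟨-b, E.neg_mem hb, _, ⟨a + b, E.add_mem ha hb, rfl⟩, ?_⟩
    simp only [LinearMap.mulLeft_apply] at e1 ⊢
    linear_combination zt * e1 - b * zt_sq

end Pool.Agent.Lib.MP_dda4e9_nt.LB
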