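import Pool.Agent.Lib.MP_dda4e9_nt.LbH

/-! The lower bound for the dimension. -/

namespace Pool.Agent.Lib.MP_dda4e9_nt.LB

open Finset Module Filter Topology

/-- the scaled linear forms attached to the small solutions of the vanishing conditions -/
def Fm (H n M X D : ℕ) : Set ℂ := {f | ∃ J : Fin (4 * H) × Fin (n + 1) → ℤ, (∀ p, |J p| ≤ X) ∧
  (∀ r < M, ∑ p, cf p.1 p.2 r * J p = 0) ∧ ∃ v < H, ∃ j < n, ∃ e : ℕ,
    f = D * (zt ^ e * ∑ p : Fin (4 * H) × Fin (n + 1), mm zt (p.2 + j) v p.1 * J p)}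

theorem xx_zero : xx zt 0 0 = 1 := by simp [xx, ff_nil]

theorem one_mem {q a n D : ℕ} (hq : 2 ≤ q) (ha : 4 * (q * q) ≤ 2 ^ a) (hn : 40 * (q * q) ≤ n)
    (hP : 4 * (q * q) * (n + 1) ≤ 2 ^ (2 * n)) (hD : D ≠ 0) :
    (1 : ℂ) ∈ Submodule.span ℚ (Fm (q * q) n (q * n) (2 ^ ((18 * a + 4) * n) - 1) D) := by
  by_contra h
  obtain ⟨Λ, h1, h2, h3⟩ := exists_lam h
  have hz := zero_est (fun e => zt_im.ne' (by simp [e])) (fun e => zt_im.ne' (by simp [e]))
    ((rec_mm zt_mem).map Λ h2) (by rwa [xx_zero]) hn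
  choose c hc1 hc2 using fun (r : Fin (q * n)) (p : Fin (4 * (q * q)) × Fin (n + 1)) =>
    cf_nat (a := a) (w := p.1) p.2 (Nat.size_le.2 (p.1.2.trans_le ha)) r.2
  have h4 := count _ hz c (2 ^ ((18 * a + 4) * n) - 1) (2 ^ (2 * n) * 2 ^ (9 * (q * n) * a))
    (fun r => (sum_le_card_nsmul _ _ _ fun p _ => hc2 r p).trans (by
      simpa using hP)) fun J hJ he k => by
      have h5 : ∀ r < q * n, ∑ p : Fin (4 * (q * q)) × Fin (n + 1), cf p.1 p.2 r * J p = 0 :=
        fun r hr => by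
          have := congrArg (Int.cast (R := ℝ)) (he ⟨r, hr⟩)
          simp only [Int.cast_sum, Int.cast_mul, Int.cast_natCast, hc1, mul_assoc, ← mul_sum,
            Int.cast_zero] at this
          exact (mul_eq_zero.1 this).resolve_left
            (pow_ne_zero _ (Nat.cast_ne_zero.2 (Nat.lcmUpto_ne_zero _)))
      have h6 := h3 _ (Submodule.subset_span ⟨J, hJ, h5, k.1, k.1.2, k.2, k.2.2, 0, rfl⟩)
        (Submodule.subset_span ⟨J, hJ, h5, k.1, k.1.2, k.2, k.2.2, 1, by ring⟩)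
      rw [← nsmul_eq_mul, map_nsmul, pow_zero, one_mul, map_sum, smul_eq_zero_iff_right hD] at h6
      rw [← h6]
      exact sum_congr rfl fun p _ => by
        rw [mul_comm (mm _ _ _ _), ← zsmul_eq_mul, map_zsmul, zsmul_eq_mul, mul_comm]
  have h5 : 1 ≤ 2 ^ ((18 * a + 4) * n) := Nat.one_le_two_pow
  have h6 : 2 ^ (2 * n) * 2 ^ (9 * (q * n) * a) * (2 ^ ((18 * a + 4) * n) - 1) + 1 ≤
      2 ^ ((2 + 9 * q * a + (18 * a + 4)) * n) := by
    rw [show (2 + 9 * q * a + (18 * a + 4)) * n = 2 * n + 9 * (q * n) * a + (18 * a + 4) * n by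
      ring, pow_add, pow_add]
    conv_rhs => rw [← Nat.sub_add_cancel h5, mul_add, mul_one]
    exact Nat.add_le_add_left (Nat.succ_le_of_lt (by positivity)) _
  rw [Nat.sub_add_cancel h5] at h4
  have h7 := h4.trans (Nat.pow_le_pow_left h6 _)
  rw [← pow_mul, ← pow_mul, Nat.pow_le_pow_iff_right one_lt_two] at h7
  simp only [Fintype.card_prod, Fintype.card_fin] at h7
  have h8 : 0 < n := by nlinarith
  have h9 : (18 * a + 4) * q ≤ 2 + 9 * q * a + (18 * a + 4) :=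
    Nat.le_of_mul_le_mul_right (c := q * n * n) (by linarith) (by positivity)
  nlinarith [Nat.mul_le_mul_left a hq]

theorem main {g δ : ℕ} (hg : 1 ≤ g) (h : ∀ j < 4 * g + 4, finrank ℚ (AA j) ≤ δ) :
    2 ^ g ≤ 4 * (108 * (g + 1) * (2 * ((4 * g + 4) * δ) + 1)) := by
  obtain ⟨E, hE, hE1, hE2⟩ := span_dim _ h
  have hq : 2 ≤ 2 ^ g := by simpa using Nat.pow_le_pow_right two_pos hg
  have hH : 2 ^ g * 2 ^ g = 2 ^ (2 * g) := by ring
  have hN : 4 * (2 ^ g * 2 ^ g) = 2 ^ (2 * g + 2) := by ring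
  generalize 2 ^ g = q at *
  generalize 2 * ((4 * g + 4) * δ) = d at *
  have hq0 : 0 < q * q := by positivity
  let θ : Fin 6 × Fin (q * q) × Fin (4 * (q * q)) × Bool → ℂ := fun p =>
    zt ^ (p.1 : ℕ) * if p.2.2.2 then xx zt p.2.1 p.2.2.1 else yy zt p.2.1 p.2.2.1
  have hs : ∀ v < q * q, ∀ w < 4 * (q * q), v.size + w.size < 4 * g + 3 := fun v hv w hw => by
    have := Nat.size_le.2 (hH ▸ hv)
    have := Nat.size_le.2 (hN ▸ hw)
    omega
  obtain ⟨c, hc, hc1⟩ := siegel θ d ((Submodule.finrank_mono (Submodule.span_le.2 (by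
    rintro _ ⟨⟨e, v, w, b⟩, rfl⟩
    have := hs v v.2 w w.2
    cases b
    exacts [hE2 _ (by omega) _ (yy_mem v w) e, hE2 _ (by omega) _ (xx_mem v w) e]))).trans hE1)
    (Submodule.subset_span ⟨(0, ⟨0, hq0⟩, ⟨0, by omega⟩, true), by simp [θ, xx_zero]⟩)
  obtain ⟨C, hC, hC1⟩ := small (4 * (q * q))
  have h6 : ∀ e : ℕ, zt ^ e = zt ^ (e % 6) := fun e => pow_eq_pow_mod e (by
    linear_combination (zt ^ 4 + zt ^ 3 - zt - 1) * zt_sq)
  have key : ∀ n, 40 * (q * q) ≤ n →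
      1 ≤ c * C * C * (2 ^ (108 * (g + 1) * (d + 1)) * (5 / 6 : ℝ) ^ q) ^ n := fun n hn => by
    have hP : 4 * (q * q) * (n + 1) ≤ 2 ^ (2 * n) := by
      rw [two_mul, pow_add]
      exact Nat.mul_le_mul (le_trans (by omega) n.lt_two_pow_self.le) n.lt_two_pow_self
    have hP' : ((4 * (q * q) : ℕ) : ℝ) * (n + 1) ≤ 2 ^ (2 * n) := by exact_mod_cast hP
    have hL : (Nat.lcmUpto (2 * n) : ℝ) ≤ 2 ^ (16 * n) := by
      exact_mod_cast (lcm_le (2 * n)).trans_eq (by ring)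
    have hK : (2 * ((2 * n : ℕ) : ℝ) + 3) ≤ 2 ^ (2 * n) := by
      exact_mod_cast le_trans (by nlinarith) hP
    set X := 2 ^ ((18 * (2 * g + 2) + 4) * n) - 1
    have hX : (X : ℝ) ≤ 2 ^ ((36 * g + 40) * n) := by
      exact_mod_cast (Nat.sub_le _ _).trans_eq (by ring)
    have h1 := hc1 (2 ^ (108 * (g + 1) * n)) (C * C * (2 ^ (108 * (g + 1) * n) * (5 / 6) ^ (q * n)))
      (one_le_pow₀ one_le_two) (by positivity) _ ?_
      (one_mem (D := Nat.lcmUpto (2 * n) ^ (4 * g + 3)) hq hN.le hn hP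
        (pow_ne_zero _ (Nat.lcmUpto_ne_zero _)))
    · refine h1.trans_eq ?_
      rw [mul_pow, ← pow_mul, ← pow_mul, ← pow_mul, show 108 * (g + 1) * (d + 1) * n =
        108 * (g + 1) * n * d + 108 * (g + 1) * n by ring, pow_add]
      ring
    rintro _ ⟨J, hJ, he, v, hv, j, hj, e, rfl⟩
    have hJ' : ∀ p, (|J p| : ℝ) ≤ X := fun p => by exact_mod_cast hJ p
    constructor
    · have h2 := hC1 n (q * n) X J hJ' he v (by omega) j
      have h3 : (3 : ℝ) ^ n ≤ 2 ^ (2 * n) := by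
        rw [pow_mul]; gcongr; norm_num
      rw [norm_mul, norm_mul, norm_pow, zt_norm, one_pow, one_mul, Complex.norm_natCast,
        Nat.cast_pow]
      calc _ ≤ (2 ^ (16 * n)) ^ (4 * g + 3) * (C * ((5 / 6) ^ (q * n) *
            (2 ^ (2 * n) * (2 ^ (2 * n) * C * 2 ^ ((36 * g + 40) * n))))) := by
            refine mul_le_mul (by gcongr) (h2.trans ?_) (norm_nonneg _) (by positivity)
            gcongr
        _ = C * C * (2 ^ ((100 * g + 92) * n) * (5 / 6 : ℝ) ^ (q * n)) := by ring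
        _ ≤ _ := by
            gcongr
            · exact one_le_two
            · omega
    · have h2 := Hg.sum (s := univ) (θ := θ) (Q := X * (2 ^ (16 * n) * 2 ^ (2 * n)) ^ (4 * g + 3))
        fun (p : Fin (4 * (q * q)) × Fin (n + 1)) _ =>
          ((integ (rec_mm zt_mem) (L := 2 * n) (fun e v hv w hw =>
            ⟨h6 e ▸ hg_base (θ := θ) (⟨e % 6, by omega⟩, ⟨v, hv⟩, ⟨w, hw⟩, true),
              h6 e ▸ hg_base (θ := θ) (⟨e % 6, by omega⟩, ⟨v, hv⟩, ⟨w, hw⟩, false)⟩)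
            _ v hv p.1 p.1.2 (hs v hv _ p.1.2) (p.2 + j) (by omega) e).mul (J p)).mono
            (by gcongr; exact hJ' p) rfl
      obtain ⟨l, h3, h4⟩ := h2
      refine ⟨l, fun i => (single_le_sum (f := fun i => (|l i| : ℝ)) (fun _ _ => abs_nonneg _)
        (mem_univ i)).trans (h3.trans ?_), ?_⟩
      · calc _ ≤ 2 ^ (2 * n) * (2 ^ ((36 * g + 40) * n) *
              (2 ^ (16 * n) * 2 ^ (2 * n) : ℝ) ^ (4 * g + 3)) := by
              gcongr
              simpa using hP'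
          _ = 2 ^ ((108 * g + 96) * n) := by ring
          _ ≤ _ := by
              gcongr
              · exact one_le_two
              · omega
      · rw [← h4, mul_sum, mul_sum]
        exact sum_congr rfl fun p _ => by push_cast; ring
  have h1 : (1 : ℝ) ≤ 2 ^ (108 * (g + 1) * (d + 1)) * (5 / 6) ^ q := by
    by_contra h1
    have h2 := (tendsto_pow_atTop_nhds_zero_of_lt_one (by positivity) (not_le.1 h1)).const_mul
      (c * C * C)
    have h3 := ge_of_tendsto h2 (eventually_atTop.2 ⟨_, key⟩)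
    norm_num at h3
  have h2 : (2 : ℝ) ^ q ≤ 2 ^ (4 * (108 * (g + 1) * (d + 1))) := by
    calc (2 : ℝ) ^ q ≤ 2 ^ q * (2 ^ (108 * (g + 1) * (d + 1)) * (5 / 6) ^ q) ^ 4 :=
          le_mul_of_one_le_right (by positivity) (one_le_pow₀ h1)
      _ = 2 ^ (4 * (108 * (g + 1) * (d + 1))) * (2 * (5 / 6) ^ 4) ^ q := by
          rw [mul_pow, mul_pow, ← pow_mul, ← pow_mul, ← pow_mul, mul_comm q, mul_comm _ 4,
            mul_left_comm]
      _ ≤ _ := mul_le_of_le_one_right (by positivity) (pow_le_one₀ (by norm_num) (by norm_num))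
  exact (pow_le_pow_iff_right₀ one_lt_two).1 h2

/-- real part in even weight, imaginary part in odd weight -/
noncomputable def gl (w : ℕ) : ℂ →ₗ[ℚ] ℝ :=
  if Even w then Complex.reLm.restrictScalars ℚ else Complex.imLm.restrictScalars ℚ

theorem dim_lower {w : ℕ} (hw : 2 ≤ w) (G : Submodule ℚ ℝ) [FiniteDimensional ℚ G]
    (hG : ∀ u : ℕ, u.size = w → gl w (ff u zt) ∈ G) : 2 ^ (w / 4) ≤ 2000 * w ^ 2 * finrank ℚ G := by
  obtain ⟨k, rfl⟩ : ∃ k, w = k + 2 := ⟨w - 2, by omega⟩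
  have h1 : ∀ z ∈ AA (k + 2), gl (k + 2) z ∈ G := fun z hz =>
    (Submodule.span_le (p := G.comap (gl (k + 2)))).2 (by rintro _ ⟨u, h, rfl⟩; exact hG u h) hz
  have h2 : finrank ℚ (AA k) ≤ 2 * finrank ℚ G := by
    rw [two_mul, ← finrank_prod]
    refine LinearMap.finrank_le_finrank_of_injective (f := LinearMap.prod
      ((gl (k + 2) ∘ₗ LinearMap.mulRight ℚ (ff 1 zt * ff 1 zt)).restrict fun z hz =>
        h1 _ (by simpa [mul_assoc] using AA_mul (AA_mul hz 1) 1))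
      ((gl (k + 2) ∘ₗ LinearMap.mulRight ℚ (ff 2 zt)).restrict fun z hz => h1 _ (AA_mul hz 2)))
      ((injective_iff_map_eq_zero _).2 fun z e => ?_)
    have e1 : gl (k + 2) (z * (ff 1 zt * ff 1 zt)) = 0 := congrArg (fun p => p.1.1) e
    have e2 : gl (k + 2) (z * ff 2 zt) = 0 := congrArg (fun p => p.2.1) e
    unfold gl at e1 e2
    refine Subtype.ext (Complex.ext ?_ ?_) <;> split_ifs at e1 e2 <;>
      simp [re_one, im_one'] at e1 e2 <;> simp [e1, im_two] at e2 <;> simp [e1, e2]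
  have h3 : 1 ≤ finrank ℚ (AA 0) := Submodule.one_le_finrank_iff.2 fun e => by
    have : (1 : ℂ) ∈ AA 0 := Submodule.subset_span ⟨0, rfl, by simp [ff_nil]⟩
    simp [e] at this
  have h4 : 1 ≤ finrank ℚ G := by
    have := AA_mono k.zero_le
    simp only at this
    omega
  generalize finrank ℚ G = γ at *
  rcases lt_or_ge k 7 with hk | hk
  · calc _ ≤ 2 ^ 2 := Nat.pow_le_pow_right two_pos (by omega)
      _ ≤ _ := by nlinarith [Nat.zero_le k]
  obtain ⟨g, h5, h6, h7⟩ : ∃ g, 1 ≤ g ∧ 4 * g + 3 ≤ k ∧ (k + 2) / 4 ≤ g + 2 :=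
    ⟨(k - 3) / 4, by omega, by omega, by omega⟩
  have h8 := main h5 fun j hj => (AA_mono (show j ≤ k by omega)).trans h2
  have h9 : (4 * (g + 1)) ^ 2 * γ ≤ (k + 2) ^ 2 * γ := by gcongr; omega
  have h10 : g + 1 ≤ (g + 1) * ((g + 1) * γ) := Nat.le_mul_of_pos_right _ (by positivity)
  calc _ ≤ 2 ^ (g + 2) := Nat.pow_le_pow_right two_pos h7
    _ ≤ _ := by rw [pow_add]; nlinarith

end Pool.Agent.Lib.MP_dda4e9_nt.LB
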