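import Pool.Agent.Lib.MP_dda4e9_nt.LbU

/-! Expansions at infinity and the differential system of the moment series. -/

namespace Pool.Agent.Lib.MP_dda4e9_nt.LB

open Polynomial Finset

/-- Laurent series in `1 / z` -/
abbrev LL : Type := HahnSeries ℤ ℂ

/-- the series `∑ c j / z ^ (j + 1)` -/
noncomputable def ser (c : ℕ → ℂ) : LL :=
  HahnSeries.ofSuppBddBelow (fun i => if 1 ≤ i then c (i - 1).toNat else 0)
    ⟨1, fun _ hi => by_contra fun h => hi (if_neg h)⟩

/-- polynomials in `z` -/
noncomputable def ph : ℂ[X] →+* LL := eval₂RingHom HahnSeries.C (HahnSeries.single (-1) 1)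

/-- the operator `z d / dz` -/
noncomputable def eu (f : LL) : LL :=
  ⟨fun i => -(i : ℂ) * f.coeff i, f.isPWO_support.mono fun i hi h => hi (by simp [h])⟩

theorem ser_coeff (c : ℕ → ℂ) (i : ℤ) : (ser c).coeff i = if 1 ≤ i then c (i - 1).toNat else 0 := by
  simp [ser]

theorem eu_coeff (f : LL) (i : ℤ) : (eu f).coeff i = -(i : ℂ) * f.coeff i := rfl

theorem ph_monomial (n : ℕ) (a : ℂ) : ph (monomial n a) = HahnSeries.single (-(n : ℤ)) a := by
  simp [ph, HahnSeries.single_pow, HahnSeries.C_apply, HahnSeries.single_mul_single]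

theorem eu_add (f g : LL) : eu (f + g) = eu f + eu g := by
  ext i; simp [eu_coeff, mul_add]

theorem eu_sub (f g : LL) : eu (f - g) = eu f - eu g := by
  ext i; simp [eu_coeff, mul_sub]

theorem eu_sum {ι : Type*} (s : Finset ι) (f : ι → LL) : eu (∑ i ∈ s, f i) = ∑ i ∈ s, eu (f i) := by
  classical
  induction s using Finset.induction_on with
  | empty => ext i; simp [eu_coeff]
  | insert a s ha ih => rw [sum_insert ha, sum_insert ha, eu_add, ih]

theorem eu_mul (p : ℂ[X]) (f : LL) :
    eu (ph p * f) = ph (X * derivative p) * f + ph p * eu f := by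
  induction p using Polynomial.induction_on' with
  | add p q hp hq => simp only [map_add, add_mul, mul_add, eu_add, hp, hq]; ring
  | monomial n a =>
    have : X * derivative (monomial n a) = monomial n (a * n) := by
      rw [derivative_monomial]
      cases n with
      | zero => simp
      | succ n => rw [X_mul_monomial]; simp
    rw [this, ph_monomial, ph_monomial]
    ext i
    simp only [eu_coeff, HahnSeries.coeff_add, HahnSeries.coeff_single_mul]
    push_cast
    ring

theorem eu_ph (p : ℂ[X]) : eu (ph p) = ph (X * derivative p) := by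
  have h : eu 1 = 0 := by
    ext i
    by_cases h : i = 0 <;> simp [eu_coeff, h]
  simpa [h] using eu_mul p 1

theorem ser_add (c d : ℕ → ℂ) : ser (fun j => c j + d j) = ser c + ser d := by
  ext i; simp only [HahnSeries.coeff_add, ser_coeff]; split_ifs <;> simp

theorem ser_sub (c d : ℕ → ℂ) : ser (fun j => c j - d j) = ser c - ser d := by
  ext i; simp only [HahnSeries.coeff_sub, ser_coeff]; split_ifs <;> simp

theorem ser_mul (a : ℂ) (c : ℕ → ℂ) : ser (fun j => a * c j) = ph (C a) * ser c := by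
  ext i
  rw [← monomial_zero_left, ph_monomial, HahnSeries.coeff_single_mul]
  simp [ser_coeff]

theorem ser_zero : ser (fun _ => 0) = 0 := by
  ext i; simp [ser_coeff]

theorem ser_sum {ι : Type*} (s : Finset ι) (c : ι → ℕ → ℂ) :
    ser (fun j => ∑ i ∈ s, c i j) = ∑ i ∈ s, ser (c i) := by
  classical
  induction s using Finset.induction_on with
  | empty => simp [ser_zero]
  | insert a s ha ih => simp only [sum_insert ha, ser_add, ih]

theorem ser_shift (c : ℕ → ℂ) : ph X * ser c = ph (C (c 0)) + ser fun j => c (j + 1) := by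
  ext i
  rw [← monomial_zero_left, ← monomial_one_one_eq_X, ph_monomial, ph_monomial,
    HahnSeries.coeff_single_mul]
  simp only [HahnSeries.coeff_add, ser_coeff, HahnSeries.coeff_single]
  rcases lt_trichotomy i 0 with h | rfl | h
  · rw [if_neg (by omega), if_neg (by omega), if_neg (by omega)]; simp
  · simp
  · rw [if_pos (by omega), if_neg (by omega), if_pos (by omega), one_mul, zero_add]
    congr 1
    omega

theorem eu_ser (c : ℕ → ℂ) : eu (ser c) = ser fun j => -((j : ℂ) + 1) * c j := by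
  ext i
  simp only [eu_coeff, ser_coeff]
  split_ifs with h
  · obtain ⟨k, rfl⟩ : ∃ k : ℕ, i = k + 1 := ⟨(i - 1).toNat, by omega⟩
    simp
  · simp

theorem ser_geo (a : ℂ) : ph (X - C a) * ser (fun j => a ^ (j + 1)) = ph (C a) := by
  rw [map_sub, sub_mul, ser_shift, ← ser_mul]
  simp [pow_succ']

theorem pow_mul_ser (j : ℕ) : ∀ c : ℕ → ℂ, ∃ b, ph (X ^ j) * ser c = ph b + ser fun i => c (i + j) := by
  induction j with
  | zero => exact fun c => ⟨0, by simp⟩
  | succ j ih =>
    intro c
    obtain ⟨b, hb⟩ := ih fun i => c (i + 1)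
    exact ⟨X ^ j * C (c 0) + b, by
      rw [pow_succ, map_mul, mul_assoc, ser_shift, mul_add, hb, map_add, map_mul, add_assoc]; rfl⟩

/-- order at least `e` at infinity -/
def Od (e : ℤ) (f : LL) : Prop := (e : WithTop ℤ) ≤ HahnSeries.addVal ℤ ℂ f

theorem od_iff {e : ℤ} {f : LL} : Od e f ↔ ∀ i < e, f.coeff i = 0 := by
  simp [Od, HahnSeries.addVal_apply, HahnSeries.le_orderTop_iff_forall]

theorem Od.mono {e e' : ℤ} {f : LL} (h : Od e f) (he : e' ≤ e) : Od e' f :=
  od_iff.2 fun i hi => od_iff.1 h i (hi.trans_le he)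

theorem Od.sub {e : ℤ} {f g : LL} (h : Od e f) (h' : Od e g) : Od e (f - g) :=
  AddValuation.map_le_sub _ h h'

theorem Od.neg {e : ℤ} {f : LL} (h : Od e f) : Od e (-f) := by
  rwa [Od, AddValuation.map_neg]

theorem Od.mul {e e' : ℤ} {f g : LL} (h : Od e f) (h' : Od e' g) : Od (e + e') (f * g) := by
  rw [Od, AddValuation.map_mul, WithTop.coe_add]
  exact add_le_add h h'

theorem Od.sum {ι : Type*} {e : ℤ} {s : Finset ι} {f : ι → LL} (h : ∀ i ∈ s, Od e (f i)) :
    Od e (∑ i ∈ s, f i) :=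
  AddValuation.map_le_sum _ h

theorem od_zero (e : ℤ) : Od e 0 := od_iff.2 fun _ _ => rfl

theorem od_one : Od 0 1 := od_iff.2 fun i hi => by simp [hi.ne]

theorem Od.prod {ι : Type*} {s : Finset ι} {e : ι → ℤ} {f : ι → LL} (h : ∀ i ∈ s, Od (e i) (f i)) :
    Od (∑ i ∈ s, e i) (∏ i ∈ s, f i) := by
  classical
  induction s using Finset.induction_on with
  | empty => exact od_one
  | insert a s ha ih =>
    rw [sum_insert ha, prod_insert ha]
    exact (h a (by simp)).mul (ih fun i hi => h i (by simp [hi]))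

theorem Od.eu {e : ℤ} {f : LL} (h : Od e f) : Od e (eu f) :=
  od_iff.2 fun i hi => by rw [eu_coeff, od_iff.1 h i hi, mul_zero]

theorem od_ser {e : ℕ} {c : ℕ → ℂ} (h : ∀ j < e, c j = 0) : Od (e + 1) (ser c) :=
  od_iff.2 fun i hi => by
    rw [ser_coeff]
    split_ifs
    exacts [h _ (by omega), rfl]

theorem od_ph {p : ℂ[X]} {k : ℕ} (h : p.natDegree ≤ k) : Od (-k) (ph p) := by
  rw [p.as_sum_range, map_sum]
  refine Od.sum fun i hi => od_iff.2 fun j hj => ?_
  have := mem_range.1 hi
  rw [ph_monomial, HahnSeries.coeff_single, if_neg (by omega)]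

theorem ph_coeff (p : ℂ[X]) (n : ℕ) : (ph p).coeff (-n) = p.coeff n := by
  induction p using Polynomial.induction_on' with
  | add p q hp hq => simp [hp, hq]
  | monomial k a => simp [ph_monomial, HahnSeries.coeff_single, coeff_monomial, eq_comm]

theorem eq_zero_of_od {p : ℂ[X]} (h : Od 1 (ph p)) : p = 0 := by
  ext n
  rw [← ph_coeff, od_iff.1 h _ (by omega), coeff_zero]

theorem od_det {ι : Type*} [Fintype ι] [DecidableEq ι] (Q : Matrix ι ι LL) (r s : ι → ℤ)
    (h : ∀ i j, Od (r i + s j) (Q i j)) : Od (∑ i, r i + ∑ i, s i) Q.det := by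
  rw [Matrix.det_apply']
  refine Od.sum fun σ _ => ?_
  have h1 := Od.prod (s := univ) fun i _ => h (σ i) i
  rw [sum_add_distrib, Equiv.sum_comp σ r] at h1
  rcases Int.units_eq_one_or (Equiv.Perm.sign σ) with e | e
  · simpa [e] using h1
  · simp only [e, Units.val_neg, Units.val_one, Int.cast_neg, Int.cast_one]
    rw [neg_one_mul (∏ i, Q (σ i) i)]
    exact h1.neg

/-- the contribution of the first letter of `v` in the recursion for the moments -/
noncomputable def lam (v j : ℕ) (y : ℂ) (m : ℕ → ℂ) : ℂ :=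
  if v = 0 then 0 else if v % 2 = 0 then m j else y - ∑ i ∈ range (j + 1), m i

/-- the recursion for the moments -/
def Rec (ζ : ℂ) (x y : ℕ → ℕ → ℂ) (m : ℕ → ℕ → ℕ → ℂ) : Prop :=
  ∀ j v w : ℕ, ((j : ℂ) + 1) * m j v w = ζ ^ (j + 1) * x v w -
    lam v j (y (v / 2) w) (fun i => m i (v / 2) w) - lam w j (y v (w / 2)) fun i => m i v (w / 2)

/-- a part of the inhomogeneous term -/
noncomputable def tl (ζ : ℂ) (v : ℕ) (y : ℂ) : ℂ[X] := if v % 2 = 0 then 0 else C y * (X - C ζ)

/-- the inhomogeneous term -/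
noncomputable def tau (ζ : ℂ) (x y : ℕ → ℕ → ℂ) (v w : ℕ) : ℂ[X] :=
  -(C (x v w * ζ) * (X - 1)) + tl ζ v (y (v / 2) w) + tl ζ w (y v (w / 2))

theorem ser_lam (ζ : ℂ) (v : ℕ) (y : ℂ) (m : ℕ → ℂ) :
    ph ((X - 1) * (X - C ζ)) * ser (fun j => lam v j y m) =
      ph (Tw ζ v) * ser m + ph (tl ζ v y) := by
  unfold lam Tw tl
  by_cases h0 : v = 0
  · simp [h0, ser_zero]
  by_cases h1 : v % 2 = 0
  · simp [h0, h1]
  simp only [h0, h1, if_false]
  have e1 : ph (X - 1) * ser (fun j => ∑ i ∈ range (j + 1), m i) = ph X * ser m := by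
    rw [map_sub, sub_mul, ser_shift, ser_shift, map_one, one_mul, add_sub_assoc, ← ser_sub]
    simp [sum_range_succ]
  have e2 := ser_geo 1
  have e3 := ser_mul y fun j => 1 ^ (j + 1)
  simp only [one_pow, mul_one, map_one] at e2 e3
  rw [ser_sub, e3]
  simp only [map_mul, map_neg]
  linear_combination ph (X - C ζ) * ph (C y) * e2 - ph (X - C ζ) * e1

theorem Rec.ode {ζ : ℂ} {x y : ℕ → ℕ → ℂ} {m : ℕ → ℕ → ℕ → ℂ} (h : Rec ζ x y m) (v w : ℕ) :
    ph ((X - 1) * (X - C ζ)) * eu (ser fun j => m j v w) =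
      ph (Tw ζ v) * ser (fun j => m j (v / 2) w) + ph (Tw ζ w) * ser (fun j => m j v (w / 2)) +
        ph (tau ζ x y v w) := by
  have e : (fun j : ℕ => -((j : ℂ) + 1) * m j v w) = fun j =>
      (lam v j (y (v / 2) w) (fun i => m i (v / 2) w) +
        lam w j (y v (w / 2)) fun i => m i v (w / 2)) - x v w * ζ ^ (j + 1) :=
    funext fun j => by linear_combination -h j v w
  rw [eu_ser, e, ser_sub, ser_add, mul_sub, mul_add, ser_lam, ser_lam, ser_mul, tau]
  simp only [map_mul, map_add, map_neg]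
  linear_combination -ph (X - 1) * ph (C (x v w)) * ser_geo ζ

end Pool.Agent.Lib.MP_dda4e9_nt.LB
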