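import Pool.Agent.Lib.MP_dda4e9_nt.LbG

/-! The unipotent connection on the tree of words: every nonzero stable submodule contains a
multiple of the root. -/

namespace Pool.Agent.Lib.MP_dda4e9_nt.LB

open Polynomial Finset

theorem wr (r : ℂ) (a p : ℂ[X]) (i j : ℕ) :
    (X - C r) * ((X - C r) ^ i * a * derivative ((X - C r) ^ j * p) -
      derivative ((X - C r) ^ i * a) * ((X - C r) ^ j * p)) =
    (X - C r) ^ (i + j) * (C ((j : ℂ) - i) * a * p +
      (X - C r) * (a * derivative p - derivative a * p)) := by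
  have h : ∀ k : ℕ, (X - C r) * derivative ((X - C r) ^ k) = C (k : ℂ) * (X - C r) ^ k := by
    intro k
    cases k with
    | zero => simp
    | succ k => rw [derivative_X_sub_C_pow]; simp only [Nat.add_sub_cancel]; ring
  simp only [derivative_mul, map_sub]
  linear_combination (X - C r) ^ i * a * p * h j - (X - C r) ^ j * a * p * h i

theorem factor (r : ℂ) {a : ℂ[X]} (ha : a ≠ 0) :
    ∃ (i : ℕ) (b : ℂ[X]), a = (X - C r) ^ i * b ∧ b.eval r ≠ 0 := by
  obtain ⟨b, h1, h2⟩ := exists_eq_pow_rootMultiplicity_mul_and_not_dvd a ha r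
  exact ⟨_, b, h1, fun h => h2 (dvd_iff_isRoot.2 h)⟩

theorem resid (r : ℂ) {S a p q : ℂ[X]} (ha : a ≠ 0) (hS : S.eval r ≠ 0)
    (h : (X - C r) * S * (a * derivative p - derivative a * p) = a ^ 2 * q) : q.eval r = 0 := by
  by_contra hq
  by_cases hp : p = 0
  · simp only [hp, derivative_zero, mul_zero, sub_zero] at h
    rcases mul_eq_zero.1 h.symm with h | h
    · exact ha (pow_eq_zero_iff two_ne_zero |>.1 h)
    · simp [h] at hq
  obtain ⟨i, a1, rfl, h1⟩ := factor r ha
  obtain ⟨j, p1, rfl, h2⟩ := factor r hp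
  rw [mul_comm _ S, mul_assoc, wr] at h
  have h0 : ∀ k : ℕ, (X - C r : ℂ[X]) ^ k ≠ 0 := fun k => pow_ne_zero _ (X_sub_C_ne_zero r)
  rcases lt_or_ge j i with hj | hj
  · obtain ⟨k, rfl⟩ := Nat.exists_eq_add_of_lt hj
    have h3 := mul_left_cancel₀ (h0 (j + k + 1 + j)) (b := S * (C ((j : ℂ) - (j + k + 1 : ℕ)) *
      a1 * p1 + (X - C r) * (a1 * derivative p1 - derivative a1 * p1)))
      (c := (X - C r) ^ (k + 1) * a1 ^ 2 * q) (by linear_combination h)
    have h4 := congrArg (eval r) h3
    have h5 : (k : ℂ) + 1 ≠ 0 := by exact_mod_cast k.succ_ne_zero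
    simp [hS, h1, h2, add_assoc] at h4
    exact h5 (by linear_combination -h4)
  · obtain ⟨k, rfl⟩ := Nat.exists_eq_add_of_le hj
    have h3 := mul_left_cancel₀ (h0 (i + i)) (b := (X - C r) ^ k * S * (C (((i + k : ℕ) : ℂ) - i) *
      a1 * p1 + (X - C r) * (a1 * derivative p1 - derivative a1 * p1)))
      (c := a1 ^ 2 * q) (by linear_combination h)
    have h4 := congrArg (eval r) h3
    cases k <;> simp [h1, hq] at h4

theorem propor {a b : ℂ[X]} (ha : a ≠ 0) (h : a * derivative b = derivative a * b) :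
    ∃ c : ℂ, b = C c * a := by
  obtain ⟨r, hr⟩ : ∃ r, a.eval r ≠ 0 := by
    by_contra h0
    push Not at h0
    exact ha (Polynomial.funext (by simpa using h0))
  refine ⟨b.eval r / a.eval r, by_contra fun h1 => ?_⟩
  obtain ⟨j, e, h2, h3⟩ := factor r (sub_ne_zero.2 h1)
  have h4 := wr r a e 0 j
  simp only [pow_zero, one_mul, ← h2, zero_add] at h4
  have h5 : a * derivative (b - C (b.eval r / a.eval r) * a) -
      derivative a * (b - C (b.eval r / a.eval r) * a) = 0 := by
    simp only [derivative_sub, derivative_C_mul]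
    linear_combination h
  rw [h5, mul_zero] at h4
  have h6 := congrArg (eval r)
    ((mul_eq_zero.1 h4.symm).resolve_left (pow_ne_zero _ (X_sub_C_ne_zero r)))
  have h7 := congrArg (eval r) h2
  cases j with
  | zero => simp [div_mul_cancel₀ _ hr] at h7; exact h3 h7.symm
  | succ j =>
    have h5 : (j : ℂ) + 1 ≠ 0 := by exact_mod_cast j.succ_ne_zero
    simp [hr, h3, h5] at h6

variable (ζ : ℂ)

/-- the common denominator -/
noncomputable def TT : ℂ[X] := X * ((X - 1) * (X - C ζ))

/-- the denominator times the first letter of the word `v` -/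
noncomputable def Tw (v : ℕ) : ℂ[X] :=
  if v = 0 then 0 else if v % 2 = 0 then (X - 1) * (X - C ζ) else -(X * (X - C ζ))

/-- the connection -/
noncomputable def DD (A : ℕ → ℂ[X]) (u : ℕ) : ℂ[X] :=
  TT ζ * derivative (A u) + (Tw ζ (2 * u) * A (2 * u) + Tw ζ (2 * u + 1) * A (2 * u + 1))

variable {ζ}

theorem DD_supp {A : ℕ → ℂ[X]} {H : ℕ} (h : ∀ u, H ≤ u → A u = 0) (u : ℕ) (hu : H ≤ u) :
    DD ζ A u = 0 := by
  simp [DD, h u hu, h (2 * u) (by omega), h (2 * u + 1) (by omega)]

theorem TT_ne : TT ζ ≠ 0 :=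
  mul_ne_zero X_ne_zero (mul_ne_zero (by simpa using X_sub_C_ne_zero (1 : ℂ)) (X_sub_C_ne_zero ζ))

theorem root_mem (h0 : ζ ≠ 0) (h1 : ζ ≠ 1) (P : Submodule ℂ[X] (ℕ → ℂ[X]))
    (hD : ∀ A ∈ P, DD ζ A ∈ P) (H : ℕ) : ∀ A ∈ P, A ≠ 0 → (∀ u, H ≤ u → A u = 0) →
      ∃ a ≠ 0, Pi.single 0 a ∈ P := by
  induction H with
  | zero => exact fun A _ h hs => absurd (funext fun u => hs u u.zero_le) h
  | succ H ih =>
    intro A hA hne hs
    have top : ∀ u, H < 2 * u ∨ u = 0 → H ≤ 2 * u → DD ζ A u = TT ζ * derivative (A u) := by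
      rintro u (h | rfl) h'
      · simp [DD, hs (2 * u) h, hs (2 * u + 1) (by omega)]
      · simp [DD, Tw, hs 1 (by omega)]
    by_cases ha : A H = 0
    · exact ih A hA hne fun u hu => by
        rcases hu.eq_or_lt with rfl | hu
        exacts [ha, hs u hu]
    by_cases h2 : A H • DD ζ A - (TT ζ * derivative (A H)) • A = 0
    swap
    · refine ih _ (P.sub_mem (P.smul_mem _ (hD A hA)) (P.smul_mem _ hA)) h2 fun u hu => ?_
      rcases hu.eq_or_lt with rfl | hu
      · simp only [Pi.sub_apply, Pi.smul_apply, smul_eq_mul]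
        rw [top H (by omega) (by omega)]
        ring
      · simp [DD_supp hs u hu, hs u hu]
    have h3 : ∀ u, A H * DD ζ A u = TT ζ * derivative (A H) * A u :=
      fun u => sub_eq_zero.1 (congrFun h2 u)
    rcases Nat.eq_zero_or_pos H with rfl | hH
    · refine ⟨A 0, ha, ?_⟩
      convert hA
      ext1 u
      cases u with
      | zero => simp
      | succ u => simp [hs (u + 1) (by omega)]
    exfalso
    have e0 : ζ - 1 ≠ 0 := sub_ne_zero.2 h1
    have e1 : 1 - ζ ≠ 0 := sub_ne_zero.2 h1.symm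
    rcases Nat.even_or_odd' H with ⟨p, rfl | rfl⟩
    · have h4 := h3 p
      have h5 := resid 0 (S := (X - 1) * (X - C ζ)) (p := A p) (q := -((X - 1) * (X - C ζ))) ha
        (by simpa using h0) (by
          simp only [DD, Tw, TT, hH.ne', if_false, Nat.mul_mod_right, if_true,
            hs (2 * p + 1) le_rfl] at h4
          simp only [map_zero, sub_zero]
          linear_combination h4)
      simp [h0] at h5
    · obtain ⟨c, hc⟩ : ∃ c : ℂ, Tw ζ (2 * p) * A (2 * p) =
          C c * ((X - 1) * (X - C ζ)) * A (2 * p + 1) := by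
        rcases Nat.eq_zero_or_pos p with rfl | hp
        · exact ⟨0, by simp [Tw]⟩
        · have h4 := h3 (2 * p)
          rw [top _ (by omega) (by omega)] at h4
          obtain ⟨c, hc⟩ := propor (b := A (2 * p)) ha
            (mul_left_cancel₀ (TT_ne (ζ := ζ)) (by linear_combination h4))
          refine ⟨c, ?_⟩
          rw [hc, Tw, if_neg (by omega), if_pos (by omega)]
          ring
      have h4 := h3 p
      have h5 := resid 1 (S := X * (X - C ζ)) (p := A p)
        (q := X * (X - C ζ) - C c * ((X - 1) * (X - C ζ))) ha (by simpa using e1) (by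
          rw [DD, hc, Tw, if_neg (by omega), if_neg (by omega), TT] at h4
          simp only [map_one]
          linear_combination h4)
      simp [e1] at h5

theorem reindex {M : Type*} [AddCommMonoid M] (F : ℕ → ℕ → M) (H : ℕ)
    (h : ∀ v u, H ≤ v → F v u = 0) :
    ∑ v ∈ range H, F v (v / 2) = ∑ u ∈ range H, (F (2 * u) u + F (2 * u + 1) u) := by
  have h1 : ∀ K, ∑ v ∈ range (2 * K), F v (v / 2) =
      ∑ u ∈ range K, (F (2 * u) u + F (2 * u + 1) u) := fun K => by
    induction K with
    | zero => simp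
    | succ K ih =>
      rw [Nat.mul_succ, sum_range_succ, sum_range_succ, ih, sum_range_succ, add_assoc,
        show 2 * K / 2 = K by omega, show (2 * K + 1) / 2 = K by omega]
  rw [← h1]
  exact sum_subset (range_subset_range.2 (by omega)) fun v _ hv => h v _ (by simpa using hv)

end Pool.Agent.Lib.MP_dda4e9_nt.LB
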