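import Pool.Agent.Lib.MP_dda4e9_nt.LbS

/-! The zero estimate: the matrix of the moments has full rank. -/

namespace Pool.Agent.Lib.MP_dda4e9_nt.LB

open Polynomial Finset Matrix

/-- pairs of vectors of polynomials -/
abbrev PP : Type := (ℕ → ℂ[X]) × (ℕ → ℂ[X])

variable (ζ : ℂ) (x y : ℕ → ℕ → ℂ) (m : ℕ → ℕ → ℕ → ℂ) (H N : ℕ)

/-- the connection on pairs -/
noncomputable def st (M : PP) : PP :=
  (DD ζ M.1, fun w => TT ζ * derivative (M.2 w) - Tw ζ w * M.2 (w / 2) -
    ∑ v ∈ range H, M.1 v * tau ζ x y v w)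

/-- the remainder series -/
noncomputable def rm (M : PP) (w : ℕ) : LL :=
  ∑ v ∈ range H, ph (M.1 v) * ser (fun j => m j v w) - ph (M.2 w)

/-- the pairing -/
noncomputable def pr (M : PP) (a b : ℕ → ℂ[X]) : ℂ[X] :=
  ∑ v ∈ range H, M.1 v * a v + ∑ w ∈ range N, M.2 w * b w

/-- the first component of the dual connection -/
noncomputable def du (a b : ℕ → ℂ[X]) (v : ℕ) : ℂ[X] :=
  TT ζ * derivative (a v) - Tw ζ v * a (v / 2) + ∑ w ∈ range N, tau ζ x y v w * b w

variable {ζ x y m H N}

theorem rm_st (h : Rec ζ x y m) {M : PP} (hM : ∀ v, H ≤ v → M.1 v = 0) (w : ℕ) :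
    rm m H (st ζ x y H M) w = ph ((X - 1) * (X - C ζ)) * eu (rm m H M w) -
      ph (Tw ζ w) * rm m H M (w / 2) := by
  have e1 := reindex (fun v u => ph (Tw ζ v * M.1 v) * ser fun j => m j u w) H
    fun v u hv => by simp [hM v hv]
  have e2 : ∀ v, ph ((X - 1) * (X - C ζ)) * eu (ph (M.1 v) * ser fun j => m j v w) =
      ph (TT ζ * derivative (M.1 v)) * ser (fun j => m j v w) +
      ph (Tw ζ v * M.1 v) * ser (fun j => m j (v / 2) w) +
      ph (Tw ζ w) * (ph (M.1 v) * ser fun j => m j v (w / 2)) + ph (M.1 v * tau ζ x y v w) := by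
    intro v
    rw [eu_mul, TT]
    have := h.ode v w
    simp only [map_mul] at this ⊢
    linear_combination ph (M.1 v) * this
  rw [rm, rm, rm, eu_sub, eu_sum, eu_ph, mul_sub (ph _), mul_sub (ph _), mul_sum, mul_sum]
  simp only [e2, sum_add_distrib, e1]
  simp only [st, DD, map_add, add_mul, map_sub, map_sum, sum_add_distrib]
  simp only [TT, map_mul, map_sub]
  ring

theorem pr_st {M : PP} (hM : ∀ v, H ≤ v → M.1 v = 0) (a : ℕ → ℂ[X]) {b : ℕ → ℂ[X]}
    (hb : ∀ w, N ≤ w → b w = 0) :
    TT ζ * derivative (pr H N M a b) =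
      pr H N (st ζ x y H M) a b + pr H N M (du ζ x y N a b) (DD ζ b) := by
  have e1 := reindex (fun v u => Tw ζ v * M.1 v * a u) H fun v u hv => by simp [hM v hv]
  have e2 := reindex (fun w u => Tw ζ w * b w * M.2 u) N fun v u hv => by simp [hb v hv]
  have e3 : ∑ w ∈ range N, (∑ v ∈ range H, M.1 v * tau ζ x y v w) * b w =
      ∑ v ∈ range H, M.1 v * ∑ w ∈ range N, tau ζ x y v w * b w := by
    simp only [sum_mul, mul_sum, mul_assoc]
    exact sum_comm
  have e4 : ∑ v ∈ range H, (DD ζ M.1 v * a v + M.1 v * du ζ x y N a b v) =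
      ∑ v ∈ range H, (TT ζ * derivative (M.1 v * a v) +
        (Tw ζ (2 * v) * M.1 (2 * v) * a v + Tw ζ (2 * v + 1) * M.1 (2 * v + 1) * a v) -
        Tw ζ v * M.1 v * a (v / 2) + M.1 v * ∑ w ∈ range N, tau ζ x y v w * b w) :=
    sum_congr rfl fun v _ => by simp only [DD, du, derivative_mul]; ring
  have e5 : ∑ w ∈ range N, ((st ζ x y H M).2 w * b w + M.2 w * DD ζ b w) =
      ∑ w ∈ range N, (TT ζ * derivative (M.2 w * b w) +
        (Tw ζ (2 * w) * b (2 * w) * M.2 w + Tw ζ (2 * w + 1) * b (2 * w + 1) * M.2 w) -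
        Tw ζ w * b w * M.2 (w / 2) - (∑ v ∈ range H, M.1 v * tau ζ x y v w) * b w) :=
    sum_congr rfl fun v _ => by simp only [DD, st, derivative_mul]; ring
  rw [sum_add_distrib, sum_add_distrib, sum_sub_distrib, sum_add_distrib, ← e1] at e4
  rw [sum_add_distrib, sum_sub_distrib, sum_sub_distrib, sum_add_distrib, ← e2, e3] at e5
  simp only [pr, map_add, map_sum, mul_add, mul_sum] at e4 e5 ⊢
  change _ = ∑ v ∈ range H, DD ζ M.1 v * a v + _ + _
  linear_combination -e4 - e5

theorem deg_Tw (v : ℕ) : (Tw ζ v).natDegree ≤ 3 := by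
  unfold Tw
  split_ifs
  · simp
  · exact le_trans (b := 2) (by compute_degree) (by norm_num)
  · exact le_trans (b := 2) (by compute_degree) (by norm_num)

theorem deg_DD {A : ℕ → ℂ[X]} {k : ℕ} (h : ∀ v, (A v).natDegree ≤ k) (v : ℕ) :
    (DD ζ A v).natDegree ≤ k + 3 := by
  have h1 : (TT ζ).natDegree ≤ 3 := by unfold TT; compute_degree
  have h2 : ∀ u, (Tw ζ u * A u).natDegree ≤ k + 3 := fun u =>
    natDegree_mul_le.trans (by have := h u; have := deg_Tw (ζ := ζ) u; omega)
  refine natDegree_add_le_of_degree_le (natDegree_mul_le.trans ?_)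
    (natDegree_add_le_of_degree_le (h2 _) (h2 _))
  have := natDegree_derivative_le (A v)
  have := h v
  omega

theorem ann (h0 : ζ ≠ 0) (h1 : ζ ≠ 1) (hx : x 0 0 ≠ 0) (hH : 0 < H) (hN : 0 < N) (M : ℕ → PP)
    (hM : ∀ k, M (k + 1) = st ζ x y H (M k)) (hs : ∀ k v, H ≤ v → (M k).1 v = 0)
    (hne : (M 0).1 ≠ 0) (a b : ℕ → ℂ[X]) (hb : ∀ w, N ≤ w → b w = 0)
    (hab : ∀ k, pr H N (M k) a b = 0) : b = 0 := by
  by_contra hb0
  -- a multiple of the root among the first components
  obtain ⟨p, hp, hpm⟩ := root_mem h0 h1 (Submodule.span ℂ[X] (Set.range fun k => (M k).1))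
    (fun A hA => by
      induction hA using Submodule.span_induction with
      | mem A hA =>
        obtain ⟨k, rfl⟩ := hA
        exact Submodule.subset_span ⟨k + 1, by simp only [hM, st]⟩
      | zero =>
        convert Submodule.zero_mem _
        ext1 u; simp [DD]
      | add A B _ _ iA iB =>
        convert Submodule.add_mem _ iA iB
        ext1 u; simp only [DD, Pi.add_apply, map_add]; ring
      | smul q A hA iA =>
        convert Submodule.add_mem _ (Submodule.smul_mem _ q iA)
          (Submodule.smul_mem _ (TT ζ * derivative q) hA)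
        ext1 u; simp only [DD, Pi.add_apply, Pi.smul_apply, smul_eq_mul, derivative_mul]; ring)
    H _ (Submodule.subset_span ⟨0, rfl⟩) hne (hs 0)
  have key : ∀ a, (∀ k, pr H N (M k) a 0 = 0) → a 0 = 0 := fun a ha => by
    have : ∀ A ∈ Submodule.span ℂ[X] (Set.range fun k => (M k).1),
        ∑ v ∈ range H, A v * a v = 0 := fun A hA => by
      induction hA using Submodule.span_induction with
      | mem A hA => obtain ⟨k, rfl⟩ := hA; simpa [pr] using ha k
      | zero => simp
      | add A B _ _ iA iB => simp [add_mul, sum_add_distrib, iA, iB]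
      | smul q A _ iA => simp [mul_assoc, ← mul_sum, iA]
    have h2 := this _ hpm
    rw [sum_eq_single 0 (fun v _ hv => by simp [hv]) (by simp [hH.ne'])] at h2
    simpa [hp] using h2
  have lin : ∀ (k) (p q : ℂ[X]) (a a' b b' : ℕ → ℂ[X]), pr H N (M k) (p • a + q • a')
      (p • b + q • b') = p * pr H N (M k) a b + q * pr H N (M k) a' b' := by
    intro k p q a a' b b'
    simp only [pr, Pi.add_apply, Pi.smul_apply, smul_eq_mul, mul_add, sum_add_distrib, mul_sum,
      mul_left_comm]
    ring
  have dual : ∀ a b, (∀ w, N ≤ w → b w = 0) → (∀ k, pr H N (M k) a b = 0) →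
      ∀ k, pr H N (M k) (du ζ x y N a b) (DD ζ b) = 0 := fun a b hb h k => by
    have := pr_st (ζ := ζ) (x := x) (y := y) (hs k) a hb
    rw [← hM, h, h] at this
    simpa using this.symm
  let P : Submodule ℂ[X] (ℕ → ℂ[X]) :=
    { carrier := {b | (∀ w, N ≤ w → b w = 0) ∧ ∃ a, ∀ k, pr H N (M k) a b = 0}
      add_mem' := by
        rintro b b' ⟨h1, a, h2⟩ ⟨h3, a', h4⟩
        exact ⟨fun w hw => by simp [h1 w hw, h3 w hw], a + a', fun k => by
          simpa [h2, h4] using lin k 1 1 a a' b b'⟩
      zero_mem' := ⟨fun _ _ => rfl, 0, fun k => by simp [pr]⟩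
      smul_mem' := by
        rintro q b ⟨h1, a, h2⟩
        exact ⟨fun w hw => by simp [h1 w hw], q • a, fun k => by
          simpa [h2] using lin k q 0 a a b b⟩ }
  obtain ⟨q, hq, hq1, a, hq2⟩ := root_mem h0 h1 P
    (fun b ⟨h1, a, h2⟩ => ⟨DD_supp h1, _, dual a b h1 h2⟩) N b ⟨hb, a, hab⟩ hb0 hb
  have h3 : q • DD ζ (Pi.single 0 q) + (-(TT ζ * derivative q)) • Pi.single 0 q =
      (0 : ℕ → ℂ[X]) := by
    ext1 u
    by_cases hu : u = 0
    · simp [hu, DD, Tw, mul_comm]
    · simp [hu, DD]
  have h4 := key (q • du ζ x y N a (Pi.single 0 q) + (-(TT ζ * derivative q)) • a) fun k => by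
    rw [← h3, lin, dual a _ hq1 hq2, hq2]; simp
  simp only [Pi.add_apply, Pi.smul_apply, smul_eq_mul, du] at h4
  rw [sum_eq_single 0 (fun v _ hv => by simp [hv]) (by simp [hN.ne'])] at h4
  have h5 := resid ζ (S := X * (X - 1)) (p := a 0) (q := C (x 0 0 * ζ) * (X - 1)) hq
    (by simp [h0, sub_ne_zero.2 h1]) (by
      simp only [TT, Tw, tau, tl, if_true, Pi.single_eq_same, Nat.zero_mod] at h4
      linear_combination h4)
  simp [hx, h0, sub_ne_zero.2 h1] at h5

theorem zero_est (h0 : ζ ≠ 0) (h1 : ζ ≠ 1) (h : Rec ζ x y m) (hx : x 0 0 ≠ 0) {n : ℕ}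
    (hn : 40 * H ≤ n) : LinearIndependent ℂ
      fun (p : Fin H × Fin n) (q : Fin (4 * H) × Fin (n + 1)) => m (q.2 + p.2) p.1 q.1 := by
  classical
  rw [Fintype.linearIndependent_iff]
  intro g hg
  by_contra hg0
  push Not at hg0
  obtain ⟨⟨v0, j0⟩, hg0⟩ := hg0
  have hH : 0 < H := v0.pos
  let A : ℕ → ℂ[X] := fun v => if hv : v < H then ∑ j : Fin n, C (g (⟨v, hv⟩, j)) * X ^ (j : ℕ)
    else 0
  have hA : A ≠ 0 := fun e => by
    have := congrArg (fun p => p.coeff j0) (congrFun e v0)
    simp [A, Fin.val_inj] at this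
    exact hg0 this
  have hAd : ∀ v, (A v).natDegree ≤ n := fun v => by
    simp only [A]
    split_ifs
    · exact natDegree_sum_le_of_forall_le _ _ fun j _ =>
        (natDegree_C_mul_X_pow_le _ _).trans j.2.le
    · simp
  have hB : ∀ w, ∃ b, w < 4 * H →
      Od (n + 2) (∑ v ∈ range H, ph (A v) * ser (fun j => m j v w) - ph b) := fun w => by
    choose b hb using fun (v : Fin H) (j : Fin n) => pow_mul_ser j fun i => m i v w
    refine ⟨∑ v, ∑ j, C (g (v, j)) * b v j, fun hw => ?_⟩
    have e : ∑ v ∈ range H, ph (A v) * ser (fun j => m j v w) =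
        ph (∑ v, ∑ j, C (g (v, j)) * b v j) +
          ser fun i => ∑ v : Fin H, ∑ j : Fin n, g (v, j) * m (i + j) v w := by
      rw [sum_range, ser_sum, map_sum, ← sum_add_distrib]
      refine sum_congr rfl fun v _ => ?_
      simp only [A, dif_pos v.2, map_sum, sum_mul, ser_sum, ← sum_add_distrib, ser_mul]
      exact sum_congr rfl fun j _ => by rw [map_mul, mul_assoc, hb, map_mul, mul_add]
    rw [e, add_sub_cancel_left]
    refine (od_ser (e := n + 1) fun i hi => ?_).mono (by push_cast; omega)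
    simpa [Finset.sum_apply, Fintype.sum_prod_type] using congrFun hg (⟨w, hw⟩, ⟨i, hi⟩)
  choose B hB using hB
  let M : ℕ → PP := fun k => (st ζ x y H)^[k] (A, B)
  have hM : ∀ k, M (k + 1) = st ζ x y H (M k) := fun k => Function.iterate_succ_apply' _ _ _
  have hs : ∀ k v, H ≤ v → (M k).1 v = 0 := fun k => by
    induction k with
    | zero => exact fun v hv => dif_neg (by omega)
    | succ k ih => rw [hM]; exact DD_supp ih
  have hd : ∀ k v, ((M k).1 v).natDegree ≤ n + 3 * k := fun k => by
    induction k with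
    | zero => exact hAd
    | succ k ih => rw [hM]; exact deg_DD ih
  have ho : ∀ (k : ℕ) w, w < 4 * H → Od (n + 2 - 3 * k) (rm m H (M k) w) := fun k => by
    induction k with
    | zero => exact fun w hw => (hB w hw).mono (by simp)
    | succ k ih =>
      intro w hw
      rw [hM, rm_st h (hs k)]
      refine Od.sub (((od_ph (k := 3) ?_).mul (ih w hw).eu).mono ?_)
        (((od_ph (deg_Tw w)).mul (ih _ (by omega))).mono ?_)
      · exact le_trans (b := 2) (by compute_degree) (by norm_num)
      · push_cast; omega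
      · push_cast; omega
  let ρ : ℕ → Fin H ⊕ Fin (4 * H) → ℂ[X] := fun k =>
    Sum.elim (fun v => (M k).1 v) fun w => (M k).2 w
  have hρ : ∀ k (c : Fin H ⊕ Fin (4 * H) → ℂ[X]), ∑ i, ρ k i * c i = pr H (4 * H) (M k)
      (fun v => if hv : v < H then c (.inl ⟨v, hv⟩) else 0)
      (fun w => if hw : w < 4 * H then c (.inr ⟨w, hw⟩) else 0) := fun k c => by
    simp [pr, ρ, Fintype.sum_sum_type, sum_range]
  obtain ⟨j, hj, hj2⟩ : ∃ j ≤ 5 * H, ∀ a b, (∀ i < j, pr H (4 * H) (M i) a b = 0) →
      pr H (4 * H) (M j) a b = 0 := by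
    have h2 : ¬ LinearIndependent ℂ[X] fun i : Fin (5 * H + 1) => ρ i := fun h2 => by
      have := h2.fintype_card_le_finrank
      simp at this
      omega
    rw [Fintype.not_linearIndependent_iff] at h2
    obtain ⟨c, hc, hc0⟩ := h2
    obtain ⟨j, hj1, hj2⟩ := exists_max_image (univ.filter fun i => c i ≠ 0) id
      (hc0.imp fun i hi => by simpa using hi)
    refine ⟨j, Nat.le_of_lt_succ j.2, fun a b hab => ?_⟩
    have e : ∀ k, pr H (4 * H) (M k) a b =
        ∑ i, ρ k i * Sum.elim (fun v : Fin H => a v) (fun w : Fin (4 * H) => b w) i := fun k => by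
      simp [pr, ρ, Fintype.sum_sum_type, sum_range]
    have e2 : ∑ i, c i * pr H (4 * H) (M i) a b = 0 := by
      simp only [e, mul_sum, ← mul_assoc]
      rw [sum_comm]
      refine sum_eq_zero fun l _ => ?_
      have := congrFun hc l
      simp only [Finset.sum_apply, Pi.smul_apply, smul_eq_mul, Pi.zero_apply] at this
      rw [← sum_mul, this, zero_mul]
    rw [sum_eq_single j (fun i _ hi => ?_) (by simp)] at e2
    · exact (mul_eq_zero.1 e2).resolve_left (by simpa using hj1)
    · by_cases hci : c i = 0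
      · rw [hci, zero_mul]
      · rw [hab i (lt_of_le_of_ne (hj2 i (by simpa using hci)) fun e => hi (Fin.ext e)), mul_zero]
  have hall : ∀ k a b, (∀ w, 4 * H ≤ w → b w = 0) → (∀ i < j, pr H (4 * H) (M i) a b = 0) →
      pr H (4 * H) (M k) a b = 0 := fun k => by
    induction k with
    | zero =>
      intro a b _ hab
      rcases Nat.eq_zero_or_pos j with rfl | hj0
      exacts [hj2 a b hab, hab 0 hj0]
    | succ k ih =>
      intro a b hb hab
      have e := pr_st (ζ := ζ) (x := x) (y := y) (hs k) a hb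
      rw [← hM, ih a b hb hab, ih _ _ (DD_supp hb) fun i hi => ?_] at e
      · simpa using e.symm
      · have e' := pr_st (ζ := ζ) (x := x) (y := y) (hs i) a hb
        rw [← hM, hab i hi, show pr H (4 * H) (M (i + 1)) a b = 0 from ?_] at e'
        · simpa using e'.symm
        · rcases (Nat.succ_le_of_lt hi).eq_or_lt with e | e
          exacts [by rw [show i + 1 = j from e]; exact hj2 a b hab, hab _ e]
  obtain ⟨Q, I, p1, p2, p3, p4⟩ := greedy {r | ∃ i < j, r = ρ i}
  have hz : ∀ i ∈ I, ∀ w, Q.adjugate (.inr w) i = 0 := fun i hi w => by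
    have := ann h0 h1 hx hH (by omega : 0 < 4 * H) M hM hs hA _ _
      (fun w hw => dif_neg (by omega)) fun k => hall k _ _ (fun w hw => dif_neg (by omega))
        fun l hl => (hρ l fun c => Q.adjugate c i).symm.trans
          ((det_updateRow_eq _ _ _).symm.trans (p4 i hi _ ⟨l, hl, rfl⟩))
    simpa using congrFun this w
  have hI : I.card ≤ H := by
    have h2 : LinearIndependent ℂ[X] fun (i : I) (v : Fin H) => Q.adjugate (.inl v) i := by
      rw [Fintype.linearIndependent_iff]
      intro c hc i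
      have e : Q.adjugate *ᵥ (fun i => if hi : i ∈ I then c ⟨i, hi⟩ else 0) = 0 := by
        ext1 l
        simp only [mulVec, dotProduct, Pi.zero_apply]
        rw [← sum_subset (subset_univ I) fun i _ hi => by simp [hi], ← sum_coe_sort]
        rcases l with v | w
        · simpa [Finset.sum_apply, mul_comm] using congrFun hc v
        · exact sum_eq_zero fun i _ => by rw [hz i i.2, zero_mul]
      have e2 := congrFun (congrArg (fun z => Q *ᵥ z) e) i
      simpa [mulVec_mulVec, mul_adjugate, smul_mulVec, p1] using e2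
    simpa using h2.fintype_card_le_finrank
  let U : Matrix (Fin H ⊕ Fin (4 * H)) (Fin H ⊕ Fin (4 * H)) LL :=
    fromBlocks 1 (Matrix.of fun v w => ser fun j => m j v w) 0 (-1)
  have h3 := od_det (ph.mapMatrix Q * U)
    (fun i => -(15 * H) - if i ∈ I then (n + 2 : ℤ) else 0)
    (Sum.elim (fun _ => -n) fun _ => n + 2) fun i l => by
      by_cases hi : i ∈ I
      · have : (ph.mapMatrix Q * U) i l = U i l := by
          simp [Matrix.mul_apply, p2 i hi, Pi.single_apply, apply_ite ph]
        rw [this, if_pos hi]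
        refine Od.mono (e := 0) ?_ (by rcases l with v | w <;> simp <;> omega)
        rcases i with v' | w' <;> rcases l with v | w
        · simp only [U, fromBlocks_apply₁₁, Matrix.one_apply]
          split_ifs
          exacts [od_one, od_zero _]
        · exact (od_ser (e := 0) (c := fun j => m j v' w) fun j hj =>
            absurd hj j.not_lt_zero).mono (by simp)
        · exact od_zero _
        · simp only [U, fromBlocks_apply₂₂, Matrix.neg_apply, Matrix.one_apply]
          split_ifs
          exacts [od_one.neg, (od_zero _).neg]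
      · obtain ⟨k, hk, e⟩ := p3 i hi
        rw [if_neg hi]
        rcases l with v | w
        · have : (ph.mapMatrix Q * U) i (.inl v) = ph ((M k).1 v) := by
            simp [Matrix.mul_apply, Fintype.sum_sum_type, U, e, ρ, Matrix.one_apply]
          rw [this]
          exact (od_ph (hd k v)).mono (by simp; omega)
        · have : (ph.mapMatrix Q * U) i (.inr w) = rm m H (M k) w := by
            simp [Matrix.mul_apply, Fintype.sum_sum_type, U, e, ρ, Matrix.one_apply, rm,
              sum_range, sub_eq_add_neg, apply_ite (fun z : LL => -z)]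
            ring
          rw [this]
          exact (ho k w w.2).mono (by simp; omega)
  have h4 : U.det = 1 := by
    simp [U, det_fromBlocks_zero₂₁, det_neg, pow_mul, show (-1 : LL) ^ 4 = 1 by norm_num]
  rw [det_mul, h4, mul_one, ← RingHom.map_det] at h3
  refine p1 (eq_zero_of_od (h3.mono ?_))
  simp only [sum_sub_distrib, sum_const, card_univ, Fintype.card_sum, Fintype.card_fin,
    Fintype.sum_sum_type, Sum.elim_inl, Sum.elim_inr, sum_ite_mem, univ_inter, nsmul_eq_mul]
  have h5 : (I.card : ℤ) ≤ H := by exact_mod_cast hI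
  have h6 : (40 * H : ℤ) ≤ n := by exact_mod_cast hn
  have h7 : (1 : ℤ) ≤ H := by exact_mod_cast hH
  push_cast
  nlinarith

end Pool.Agent.Lib.MP_dda4e9_nt.LB
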